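import Mathlib
import Pool.Agent.N984.QX.Stm

/-!
# Project QX, leaf LIM (helper987).
-/

set_option autoImplicit false

namespace Pool.Agent.N987.QX

open Pool.Agent.N984.QX

lemma neg_two_pow_le (k : ℕ) : (-2 : ℝ) ^ k ≤ 2 ^ k := by
  have h : |(-2 : ℝ) ^ k| = 2 ^ k := by
    rw [abs_pow]; norm_num
  rw [← h]; exact le_abs_self _

/-- The half case. -/
lemma half_bound (m : ℕ) :
    ((4 : ℝ) ^ m + (-2) ^ m - 2) / (3 * (2 ^ (2 * m) + 2)) ≤ 1 / 3 + (1 / 2) ^ m := by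
  have h4 : (2 : ℝ) ^ (2 * m) = 4 ^ m := by rw [pow_mul]; norm_num
  have h1 := neg_two_pow_le m
  have hp : (0 : ℝ) < 4 ^ m := by positivity
  have h2p : (0 : ℝ) < 2 ^ m := by positivity
  have h22 : (1 / 2 : ℝ) ^ m * 4 ^ m = 2 ^ m := by
    rw [← mul_pow]; norm_num
  have hh : (0 : ℝ) < (1 / 2) ^ m := by positivity
  rw [h4, div_le_iff₀ (by positivity)]
  nlinarith [h22, hh]

/-- The general case. -/
lemma gen_bound (k N : ℕ) :
    ((4 : ℝ) ^ k + (-2) ^ k - 2) / (3 * (2 ^ N + 2)) ≤ 4 ^ k / 2 ^ N := by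
  have h1 := neg_two_pow_le k
  have h24 : (2 : ℝ) ^ k ≤ 4 ^ k := pow_le_pow_left₀ (by norm_num) (by norm_num) k
  have hp : (0 : ℝ) < 4 ^ k := by positivity
  have hN : (0 : ℝ) < 2 ^ N := by positivity
  have hq : (0 : ℝ) < 4 ^ k / 2 ^ N := by positivity
  rw [div_le_iff₀ (by positivity)]
  have h5 : (4 : ℝ) ^ k / 2 ^ N * (3 * (2 ^ N + 2)) = 3 * 4 ^ k + 6 * (4 ^ k / 2 ^ N) := by
    field_simp
    ring
  rw [h5]
  linarith

lemma four_div {k D n : ℕ} (h : 2 * k + D ≤ n) : (4 : ℝ) ^ k / 2 ^ n ≤ (1 / 2) ^ D := by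
  have h4 : (4 : ℝ) ^ k = 2 ^ (2 * k) := by rw [pow_mul]; norm_num
  rw [h4, div_le_iff₀ (by positivity)]
  have h2 : (2 : ℝ) ^ (2 * k + D) ≤ 2 ^ n := pow_le_pow_right₀ (by norm_num) h
  calc (2 : ℝ) ^ (2 * k) = (1 / 2) ^ D * 2 ^ (2 * k + D) := by
        rw [pow_add, mul_comm ((2 : ℝ) ^ (2 * k)), ← mul_assoc, ← mul_pow]; norm_num
    _ ≤ (1 / 2) ^ D * 2 ^ n := by gcongr

theorem t_LIM : S_LOW → S_LIM := by
  intro hL
  obtain ⟨he, ho⟩ := hL
  refine ⟨?_, ?_, ?_⟩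
  · intro ε hε
    obtain ⟨M, hM⟩ := exists_pow_lt_of_lt_one hε (by norm_num : (1 / 2 : ℝ) < 1)
    have hMm : ∀ m, M ≤ m → (1 / 2 : ℝ) ^ m ≤ ε := fun m hm =>
      (pow_le_pow_of_le_one (by norm_num) (by norm_num) hm).trans hM.le
    refine ⟨2 * M, ?_⟩
    intro n hn
    rcases Nat.even_or_odd n with hev | hodd
    · obtain ⟨m, hm⟩ := hev
      have hm2 : n = 2 * m := by omega
      subst hm2
      have hk : 2 * m / 2 = m := by omega
      rw [hk]
      refine le_trans ?_ (he (2 * m) m ⟨m, by omega⟩)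
      have hb := half_bound m
      have hs := hMm m (by omega)
      apply mul_le_mul_of_nonneg_right _ (Nat.cast_nonneg _)
      linarith
    · obtain ⟨m, hm⟩ := hodd
      subst hm
      have hk : (2 * m + 1) / 2 = m := by omega
      rw [hk]
      refine le_trans ?_ (ho (2 * m + 1) m ⟨m, rfl⟩)
      have hb := half_bound (m + 1)
      have hs := hMm (m + 1) (by omega)
      have e : 2 * m + 1 + 1 = 2 * (m + 1) := by ring
      rw [e]
      apply mul_le_mul_of_nonneg_right _ (Nat.cast_nonneg _)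
      linarith
  · intro ε hε
    obtain ⟨D, hD⟩ := exists_pow_lt_of_lt_one hε (by norm_num : (1 / 2 : ℝ) < 1)
    refine ⟨D + 1, ?_⟩
    intro n k hn
    rcases Nat.even_or_odd n with hev | hodd
    · refine le_trans ?_ (he n k hev)
      have hb := gen_bound k n
      have hs : (4 : ℝ) ^ k / 2 ^ n ≤ (1 / 2) ^ D := four_div (by omega)
      apply mul_le_mul_of_nonneg_right _ (Nat.cast_nonneg _)
      linarith
    · refine le_trans ?_ (ho n k hodd)
      have hb := gen_bound (k + 1) (n + 1)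
      have hs : (4 : ℝ) ^ (k + 1) / 2 ^ (n + 1) ≤ (1 / 2) ^ D := four_div (by omega)
      apply mul_le_mul_of_nonneg_right _ (Nat.cast_nonneg _)
      linarith
  · have h := he 12 6 ⟨6, rfl⟩
    have hc : Nat.choose 12 6 = 924 := by decide
    rw [hc] at h
    have h611 : (611 : ℝ) < (Qex 12 6 : ℝ) := lt_of_lt_of_le (by norm_num) h
    have : 611 < Qex 12 6 := by exact_mod_cast h611
    omega

end Pool.Agent.N987.QX
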