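import Pool.Agent.N984.QX.Stm

/-!
# Project QX, leaf TRANS
-/

set_option autoImplicit false

namespace Pool.Agent.N987.QX

open Pool.Agent.N984.QX

variable {n : ℕ}

lemma two0 : (2 : ZMod 2) = 0 := by decide

lemma B_add_left (x y z : Vc n) : B (x + y) z = B x z + B y z := by
  unfold B
  rw [← Finset.sum_add_distrib]
  refine Finset.sum_congr rfl fun i _ => ?_
  show ((x i).1 + (y i).1) * (z i).2 + ((x i).2 + (y i).2) * (z i).1 = _
  ring

lemma B_comm (x y : Vc n) : B x y = B y x := by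
  unfold B
  refine Finset.sum_congr rfl fun i _ => ?_
  ring

lemma B_add_right (x y z : Vc n) : B x (y + z) = B x y + B x z := by
  rw [B_comm, B_add_left, B_comm y, B_comm z]

lemma B_smul_left (c : ZMod 2) (x z : Vc n) : B (c • x) z = c * B x z := by
  unfold B
  rw [Finset.mul_sum]
  refine Finset.sum_congr rfl fun i _ => ?_
  show (c * (x i).1) * (z i).2 + (c * (x i).2) * (z i).1 = _
  ring

lemma B_smul_right (c : ZMod 2) (x z : Vc n) : B x (c • z) = c * B x z := by
  rw [B_comm, B_smul_left, B_comm]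

lemma B_self (x : Vc n) : B x x = 0 := by
  unfold B
  refine Finset.sum_eq_zero fun i _ => ?_
  linear_combination ((x i).1 * (x i).2) * two0

lemma J_add (x y : Vc n) : J (x + y) = J x + J y := by
  funext i
  refine Prod.ext rfl ?_
  show (x i).1 + (y i).1 + ((x i).2 + (y i).2) = (x i).1 + (x i).2 + ((y i).1 + (y i).2)
  ring

lemma J_smul (c : ZMod 2) (x : Vc n) : J (c • x) = c • J x := by
  funext i
  refine Prod.ext rfl ?_
  show c * (x i).1 + c * (x i).2 = c * ((x i).1 + (x i).2)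
  ring

lemma JJ (x : Vc n) : J (J x) = J x + x := by
  funext i
  refine Prod.ext ?_ ?_
  · show (x i).1 + (x i).2 = (x i).2 + (x i).1
    ring
  · show (x i).2 + ((x i).1 + (x i).2) = (x i).1 + (x i).2 + (x i).2
    ring

lemma add_self (x : Vc n) : x + x = 0 := by
  funext i
  refine Prod.ext ?_ ?_
  · show (x i).1 + (x i).1 = 0
    linear_combination (x i).1 * two0
  · show (x i).2 + (x i).2 = 0
    linear_combination (x i).2 * two0

lemma JJJ (x : Vc n) : J (J (J x)) = x := by
  rw [JJ x, J_add, JJ, add_assoc, add_comm x, ← add_assoc, add_self, zero_add]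

lemma B_JJ (x y : Vc n) : B (J x) (J y) = B x y := by
  unfold B
  refine Finset.sum_congr rfl fun i _ => ?_
  show (x i).2 * ((y i).1 + (y i).2) + ((x i).1 + (x i).2) * (y i).2 = _
  linear_combination ((x i).2 * (y i).2) * two0

lemma B_J_left (x y : Vc n) : B (J x) y = B x (J y) + B x y := by
  rw [← B_JJ (J x) y, JJ, B_add_left, B_JJ]
  ring

/-- the transvection -/
def t (a : Vc n) : Vc n →ₗ[ZMod 2] Vc n where
  toFun x := x + (B x (J a) • a + B x a • J a)
  map_add' x y := by
    rw [B_add_left, B_add_left, add_smul, add_smul]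
    abel
  map_smul' c x := by
    rw [B_smul_left, B_smul_left, mul_smul, mul_smul, RingHom.id_apply, smul_add, smul_add]

lemma t_apply (a x : Vc n) : t a x = x + (B x (J a) • a + B x a • J a) := rfl

lemma B_t_J {a : Vc n} (ha : B a (J a) = 0) (x : Vc n) : B (t a x) (J a) = B x (J a) := by
  rw [t_apply, B_add_left, B_add_left, B_smul_left, B_smul_left, ha, B_self]
  ring

lemma B_t_a {a : Vc n} (ha : B a (J a) = 0) (x : Vc n) : B (t a x) a = B x a := by
  rw [t_apply, B_add_left, B_add_left, B_smul_left, B_smul_left, B_comm (J a) a, ha, B_self]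
  ring

lemma t_t {a : Vc n} (ha : B a (J a) = 0) (x : Vc n) : t a (t a x) = x := by
  rw [t_apply a (t a x), B_t_J ha, B_t_a ha, t_apply, add_assoc, add_self, add_zero]

lemma B_t {a : Vc n} (ha : B a (J a) = 0) (x y : Vc n) : B (t a x) (t a y) = B x y := by
  rw [t_apply a y, B_add_right, B_add_right, B_smul_right, B_smul_right, B_t_J ha, B_t_a ha,
    t_apply a x, B_add_left, B_add_left, B_smul_left, B_smul_left, B_comm a y, B_comm (J a) y]
  linear_combination (B y (J a) * B x a + B y a * B x (J a)) * two0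

lemma t_J (a x : Vc n) : t a (J x) = J (t a x) := by
  rw [t_apply, t_apply, J_add, J_add, J_smul, J_smul, JJ, B_JJ, B_J_left, add_smul, smul_add]
  abel

/-- the action on the codes -/
lemma herm_comap {a : Vc n} (ha : B a (J a) = 0) {C : Submodule (ZMod 2) (Vc n)}
    (hC : C ∈ Herm n) : C.comap (t a) ∈ Herm n := by
  obtain ⟨h1, h2⟩ := hC
  refine ⟨fun v => ?_, fun v hv => ?_⟩
  · rw [Submodule.mem_comap, h1]
    constructor
    · intro h w hw
      rw [← B_t ha]
      exact h _ hw
    · intro h w hw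
      rw [← t_t ha w, B_t ha]
      apply h
      rw [Submodule.mem_comap, t_t ha]
      exact hw
  · rw [Submodule.mem_comap, t_J]
    exact h2 _ hv

lemma count_t {a : Vc n} (ha : B a (J a) = 0) (v : Vc n) :
    Set.ncard {C ∈ Herm n | v ∈ C} = Set.ncard {C ∈ Herm n | t a v ∈ C} := by
  have hcc : ∀ C : Submodule (ZMod 2) (Vc n), (C.comap (t a)).comap (t a) = C := by
    intro C
    ext x
    rw [Submodule.mem_comap, Submodule.mem_comap, t_t ha]
  refine Set.ncard_congr (fun C _ => C.comap (t a)) ?_ ?_ ?_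
  · rintro C ⟨h1, h2⟩
    refine ⟨herm_comap ha h1, ?_⟩
    rw [Submodule.mem_comap, t_t ha]
    exact h2
  · intro C D _ _ h
    rw [← hcc C, ← hcc D]
    exact congrArg _ h
  · rintro D ⟨h1, h2⟩
    exact ⟨D.comap (t a), ⟨herm_comap ha h1, h2⟩, hcc D⟩

lemma count_J (w : Vc n) :
    Set.ncard {C ∈ Herm n | w ∈ C} = Set.ncard {C ∈ Herm n | J w ∈ C} := by
  congr 1
  ext C
  constructor
  · rintro ⟨h1, h2⟩
    exact ⟨h1, h1.2 _ h2⟩
  · rintro ⟨h1, h2⟩
    refine ⟨h1, ?_⟩
    have h3 := h1.2 _ (h1.2 _ h2)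
    rwa [JJJ] at h3

lemma z01 (x : ZMod 2) : x = 0 ∨ x = 1 := by revert x; decide

/-- step 1, with a good choice of the second vector -/
lemma step0 {v w : Vc n} (hv : B v (J v) = 0) (hw : B w (J w) = 0) (h0 : B v w = 0)
    (h1 : B v (J w) = 1) :
    Set.ncard {C ∈ Herm n | v ∈ C} = Set.ncard {C ∈ Herm n | w ∈ C} := by
  have ha : B (v + w) (J (v + w)) = 0 := by
    rw [J_add, B_add_left, B_add_right, B_add_right, hv, hw, h1, B_comm w (J v), B_J_left, h0, h1]
    linear_combination two0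
  have ht : t (v + w) v = w := by
    rw [t_apply, J_add, B_add_right, B_add_right, hv, h1, h0, B_self, zero_add, zero_add, one_smul,
      zero_smul, add_zero, ← add_assoc, add_self, zero_add]
  rw [count_t ha v, ht]

lemma iso_J {w : Vc n} (hw : B w (J w) = 0) : B (J w) (J (J w)) = 0 := by
  rw [B_JJ, hw]

lemma step1 {v w : Vc n} (hv : B v (J v) = 0) (hw : B w (J w) = 0)
    (h : B v w ≠ 0 ∨ B v (J w) ≠ 0) :
    Set.ncard {C ∈ Herm n | v ∈ C} = Set.ncard {C ∈ Herm n | w ∈ C} := by
  rcases z01 (B v w) with h0 | h0 <;> rcases z01 (B v (J w)) with h1 | h1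
  · rcases h with h | h
    · exact absurd h0 h
    · exact absurd h1 h
  · exact step0 hv hw h0 h1
  · rw [count_J w]
    refine step0 hv (iso_J hw) h1 ?_
    rw [JJ, B_add_right, h0, h1]
    decide
  · rw [count_J w, count_J (J w)]
    refine step0 hv (iso_J (iso_J hw)) ?_ ?_
    · rw [JJ, B_add_right, h0, h1]
      decide
    · rw [JJJ, h0]

lemma exists_pair {v : Vc n} (hv : v ≠ 0) : ∃ x, B v x ≠ 0 := by
  classical
  obtain ⟨i, hi⟩ : ∃ i, v i ≠ 0 := by
    by_contra hcon
    push Not at hcon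
    exact hv (funext hcon)
  have key : ∀ c : ZMod 2 × ZMod 2, B v (Pi.single i c) = (v i).1 * c.2 + (v i).2 * c.1 := by
    intro c
    unfold B
    rw [Finset.sum_eq_single i]
    · rw [Pi.single_eq_same]
    · intro j _ hj
      rw [Pi.single_eq_of_ne hj]
      simp
    · intro h
      exact absurd (Finset.mem_univ _) h
  by_cases h1 : (v i).1 = 0
  · refine ⟨Pi.single i (1, 0), ?_⟩
    rw [key, h1]
    intro h2
    apply hi
    refine Prod.ext h1 ?_
    simpa using h2
  · refine ⟨Pi.single i (0, 1), ?_⟩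
    rw [key]
    simpa using h1

/-- the Hermitian form is not zero -/
def NZ (v w : Vc n) : Prop := B v w ≠ 0 ∨ B v (J w) ≠ 0

lemma not_NZ {v w : Vc n} (h : ¬ NZ v w) : B v w = 0 ∧ B v (J w) = 0 := by
  unfold NZ at h
  push Not at h
  exact h

lemma NZ_congr {v x u : Vc n} (h : NZ v x) (h0 : B v u = B v x) (h1 : B v (J u) = B v (J x)) :
    NZ v u := by
  unfold NZ
  rw [h0, h1]
  exact h

lemma step2 {v w : Vc n} (hv0 : v ≠ 0) (hw0 : w ≠ 0) (hv : B v (J v) = 0)
    (h : ¬ NZ v w) : ∃ u, B u (J u) = 0 ∧ NZ v u ∧ NZ w u := by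
  obtain ⟨h0, h1⟩ := not_NZ h
  have hJwv : B w (J v) = 0 := by
    rw [B_comm, B_J_left, h0, h1, add_zero]
  have hwv : B w v = 0 := by rw [B_comm, h0]
  -- a vector which is not orthogonal to both
  obtain ⟨x, hx1, hx2⟩ : ∃ x, NZ v x ∧ NZ w x := by
    obtain ⟨x1, hx1⟩ := exists_pair hv0
    obtain ⟨x2, hx2⟩ := exists_pair hw0
    by_cases h3 : NZ w x1
    · exact ⟨x1, Or.inl hx1, h3⟩
    · by_cases h4 : NZ v x2
      · exact ⟨x2, h4, Or.inl hx2⟩
      · obtain ⟨a1, a2⟩ := not_NZ h3
        obtain ⟨b1, b2⟩ := not_NZ h4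
        refine ⟨x1 + x2, ?_, ?_⟩
        · refine NZ_congr (x := x1) (Or.inl hx1) ?_ ?_
          · rw [B_add_right, b1, add_zero]
          · rw [J_add, B_add_right, b2, add_zero]
        · refine NZ_congr (x := x2) (Or.inl hx2) ?_ ?_
          · rw [B_add_right, a1, zero_add]
          · rw [J_add, B_add_right, a2, zero_add]
  rcases z01 (B x (J x)) with hq | hq
  · exact ⟨x, hq, hx1, hx2⟩
  · -- correct by a multiple of `v`
    obtain ⟨y, hy1, hy2, hy3, hy4, hy5, hy6⟩ : ∃ y, B x y = 1 ∧ B y (J y) = 0 ∧ B v y = 0 ∧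
        B v (J y) = 0 ∧ B w y = 0 ∧ B w (J y) = 0 := by
      rcases z01 (B v x) with hb | hb
      · rcases z01 (B v (J x)) with hc | hc
        · rcases hx1 with h5 | h5
          · exact absurd hb h5
          · exact absurd hc h5
        · refine ⟨J v, ?_, iso_J hv, hv, ?_, hJwv, ?_⟩
          · rw [B_comm, B_J_left, hb, hc, add_zero]
          · rw [JJ, B_add_right, hv, B_self, add_zero]
          · rw [JJ, B_add_right, hJwv, hwv, add_zero]
      · exact ⟨v, by rw [B_comm, hb], hv, B_self v, hv, hwv, hJwv⟩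
    refine ⟨x + y, ?_, ?_, ?_⟩
    · rw [J_add, B_add_left, B_add_right, B_add_right, hq, hy2, B_comm y (J x), B_J_left, hy1]
      linear_combination (1 + B x (J y)) * two0
    · refine NZ_congr (x := x) hx1 ?_ ?_
      · rw [B_add_right, hy3, add_zero]
      · rw [J_add, B_add_right, hy4, add_zero]
    · refine NZ_congr (x := x) hx2 ?_ ?_
      · rw [B_add_right, hy5, add_zero]
      · rw [J_add, B_add_right, hy6, add_zero]

theorem t_TRANS : S_TRANS := by
  intro n v w hv0 hw0 hv hw
  by_cases h : NZ v w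
  · exact step1 hv hw h
  · obtain ⟨u, hu, h1, h2⟩ := step2 hv0 hw0 hv h
    rw [step1 hv hu h1, step1 hw hu h2]

end Pool.Agent.N987.QX
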