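import Pool.Agent.N987.QX.Stm4
import Pool.Agent.N985.QX.LOW

/-!
# Project QX (helper987): leaves FRAC and LOWX
-/

set_option autoImplicit false

namespace Pool.Agent.N987.QX

open Pool.Agent.N984.QX Finset

lemma R_nonneg (k : ℕ) : ∀ c, 0 ≤ R c k ∧ 0 ≤ R c (k + 1) := by
  induction k with
  | zero => intro c; simp [R]
  | succ k ih =>
    intro c
    refine ⟨(ih c).2, ?_⟩
    rw [R]
    apply mul_nonneg _ (ih (c + 2)).1
    apply div_nonneg _ (by positivity)
    have : (2 : ℝ) ^ (2 * k + 1) ≤ 2 ^ (2 * k + c + 3) := pow_le_pow_right₀ (by norm_num) (by omega)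
    linarith

lemma card_up2 {n : ℕ} (A : Finset (Fin n)) : (up2 A).card = A.card + 2 := by
  rw [up2, Finset.card_insert_of_notMem, Finset.card_insert_of_notMem, Finset.card_map,
    Finset.card_map]
  · intro h
    rw [Finset.mem_map] at h
    obtain ⟨j, hj, hj1⟩ := h
    rw [Finset.mem_map] at hj
    obtain ⟨l, _, hl⟩ := hj
    rw [← hl] at hj1
    have : (l.succ : Fin (n + 1)) = 0 := Fin.succ_injective _ hj1
    exact Fin.succ_ne_zero _ this
  · intro h
    rw [Finset.mem_insert, Finset.mem_map] at h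
    rcases h with h | ⟨j, _, hj1⟩
    · exact absurd h.symm (Fin.succ_ne_zero (0 : Fin (n + 1)))
    · exact Fin.succ_ne_zero _ hj1

lemma frac_aux (h1 : S_STEP) (h2 : S_TOT) (h3 : S_PERM) (k : ℕ) :
    (∀ (c n : ℕ) (A : Finset (Fin n)), n = 2 * k + c → Even c → A.card = k →
      R c k * Set.ncard (Herm n) ≤ gN n A) ∧
    (∀ (c n : ℕ) (A : Finset (Fin n)), n = 2 * (k + 1) + c → Even c → A.card = k + 1 →
      R c (k + 1) * Set.ncard (Herm n) ≤ gN n A) := by
  classical
  induction k with
  | zero =>
    refine ⟨?_, ?_⟩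
    · intro c n A _ _ hA
      rw [R, one_mul]
      have hA0 : A = ∅ := Finset.card_eq_zero.mp hA
      have : {C ∈ Herm n | Good C A} = Herm n := by
        ext C
        refine ⟨fun h => h.1, fun h => ⟨h, ?_⟩⟩
        intro v _ hv
        funext i
        exact hv i (by rw [hA0]; exact Finset.notMem_empty i)
      rw [gN, this]
    · intro c n A _ _ hA
      rw [R, one_mul]
      obtain ⟨i, rfl⟩ := Finset.card_eq_one.mp hA
      have : {C ∈ Herm n | Good C {i}} = Herm n := by
        ext C
        refine ⟨fun h => h.1, fun h => ⟨h, ?_⟩⟩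
        intro v hvC hv
        have hiso : B v (J v) = 0 := (h.1 v).mp hvC _ (h.2 v hvC)
        have hB : B v (J v) = (v i).1 * ((v i).1 + (v i).2) + (v i).2 * (v i).2 := by
          unfold B
          rw [Finset.sum_eq_single i]
          · rfl
          · intro j _ hj
            have : v j = 0 := hv j (by simpa using hj)
            rw [this]; simp
          · intro h; exact absurd (Finset.mem_univ _) h
        rw [hB] at hiso
        have key : ∀ x : ZMod 2 × ZMod 2, x.1 * (x.1 + x.2) + x.2 * x.2 = 0 → x = 0 := by decide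
        have hvi := key _ hiso
        funext j
        by_cases hj : j = i
        · rw [hj]; exact hvi
        · exact hv j (by simpa using hj)
      rw [gN, this]
  | succ k ih =>
    refine ⟨ih.2, ?_⟩
    intro c n A hn hc hA
    obtain ⟨m, rfl⟩ : ∃ m, n = m + 2 := ⟨n - 2, by omega⟩
    have hm : m = 2 * k + (c + 2) := by omega
    obtain ⟨A', _, hA'⟩ := Finset.exists_subset_card_eq
      (show k ≤ (Finset.univ : Finset (Fin m)).card by rw [Finset.card_univ, Fintype.card_fin]; omega)
    have hcard : (up2 A').card = A.card := by rw [card_up2, hA', hA]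
    let e := Finset.equivOfCardEq hcard
    let p : Equiv.Perm (Fin (m + 2)) := e.extendSubtype
    have hpm : (up2 A').map p.toEmbedding = A := by
      apply Finset.eq_of_subset_of_card_le
      · intro x hx
        rw [Finset.mem_map] at hx
        obtain ⟨y, hy, rfl⟩ := hx
        exact e.extendSubtype_mem y hy
      · rw [Finset.card_map, hcard]
    have hg : gN (m + 2) A = gN (m + 2) (up2 A') := by rw [← hpm, h3]
    have hs := h1 m A'
    have ht := h2 m (by rw [hm]; exact (even_two_mul k).add (hc.add even_two))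
    have hi := ih.1 (c + 2) m A' hm (hc.add even_two) hA'
    rw [hg, R]
    have e1 : 2 * k + c + 3 = m + 1 := by omega
    rw [e1]
    rw [hA'] at hs
    have hd : (0 : ℝ) ≤ 2 ^ (m + 1) - 2 ^ (2 * k + 1) := by
      have : (2 : ℝ) ^ (2 * k + 1) ≤ 2 ^ (m + 1) := pow_le_pow_right₀ (by norm_num) (by omega)
      linarith
    have hR := (R_nonneg k (c + 2)).1
    have hD : (0 : ℝ) < 2 ^ (m + 1) + 1 := by positivity
    calc ((2 : ℝ) ^ (m + 1) - 2 ^ (2 * k + 1)) / (2 ^ (m + 1) + 1) * R (c + 2) k *
          Set.ncard (Herm (m + 2)) ≤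
        ((2 : ℝ) ^ (m + 1) - 2 ^ (2 * k + 1)) / (2 ^ (m + 1) + 1) * R (c + 2) k *
          ((2 ^ (m + 1) + 1) * Set.ncard (Herm m)) :=
          mul_le_mul_of_nonneg_left ht (mul_nonneg (div_nonneg hd hD.le) hR)
      _ = ((2 : ℝ) ^ (m + 1) - 2 ^ (2 * k + 1)) * (R (c + 2) k * Set.ncard (Herm m)) := by
          field_simp
      _ ≤ ((2 : ℝ) ^ (m + 1) - 2 ^ (2 * k + 1)) * gN m A' := mul_le_mul_of_nonneg_left hi hd
      _ ≤ gN (m + 2) (up2 A') := hs

theorem t_FRAC (h1 : S_STEP) (h2 : S_TOT) (h3 : S_PERM) : S_FRAC :=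
  fun k c A hc hA => (frac_aux h1 h2 h3 k).1 c _ A rfl hc hA

open Classical in
theorem t_LOWX (h : S_FRAC) (h1 : S_STATE) (h2 : S_NE) (h3 : S_QEX) : S_LOWX := by
  intro k c hc
  set n := 2 * k + c with hn
  have hne : Even n := (even_two_mul k).add hc
  haveI hfin : Finite (Submodule (ZMod 2) (Vc n)) :=
    Finite.of_injective (fun C : Submodule (ZMod 2) (Vc n) => (C : Set (Vc n)))
      SetLike.coe_injective
  set L : Finset (Submodule (ZMod 2) (Vc n)) := (Set.toFinite (Herm n)).toFinset with hL
  have hmem : ∀ C, C ∈ L ↔ C ∈ Herm n := fun C => Set.Finite.mem_toFinset _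
  have hLc : Set.ncard (Herm n) = L.card := Set.ncard_eq_toFinset_card _ _
  have hLne : L.Nonempty := by
    obtain ⟨C, h⟩ := h2 n hne
    exact ⟨C, (hmem C).mpr h⟩
  set Ps : Finset (Finset (Fin n)) := Finset.powersetCard k Finset.univ with hP
  have hPcard : Ps.card = n.choose k := by
    rw [hP, Finset.card_powersetCard, Finset.card_univ, Fintype.card_fin]
  have hg : ∀ A : Finset (Fin n), gN n A = (L.filter fun C => Good C A).card := by
    intro A
    rw [gN, ← Set.ncard_coe_finset]
    congr 1
    ext C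
    simp [hmem]
  have hdc : ∑ A ∈ Ps, (L.filter fun C => Good C A).card =
      ∑ C ∈ L, (Ps.filter fun A => Good C A).card := by
    simp only [Finset.card_filter]
    exact Finset.sum_comm
  have hlow : (R c k * n.choose k) * L.card ≤ ∑ C ∈ L, ((Ps.filter fun A => Good C A).card : ℝ) := by
    have e : ∑ C ∈ L, ((Ps.filter fun A => Good C A).card : ℝ) = ∑ A ∈ Ps, (gN n A : ℝ) := by
      have e2 : ∑ A ∈ Ps, gN n A = ∑ C ∈ L, (Ps.filter fun A => Good C A).card := by
        rw [← hdc]
        exact Finset.sum_congr rfl fun A _ => hg A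
      exact_mod_cast e2.symm
    rw [e]
    calc (R c k * n.choose k) * L.card = Ps.card • (R c k * L.card) := by
          rw [nsmul_eq_mul, hPcard]; ring
      _ ≤ ∑ A ∈ Ps, (gN n A : ℝ) := by
          apply Finset.card_nsmul_le_sum
          intro A hA
          have := h k c A hc (Finset.mem_powersetCard.mp hA).2
          rw [← hLc]
          exact this
  obtain ⟨C, hC, hCge⟩ : ∃ C ∈ L, R c k * n.choose k ≤ ((Ps.filter fun A => Good C A).card : ℝ) := by
    by_contra hcon
    push Not at hcon
    have := Finset.sum_lt_sum_of_nonempty hLne hcon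
    rw [Finset.sum_const, nsmul_eq_mul] at this
    linarith
  refine hCge.trans ?_
  have hcl := Pool.Agent.N985.QX.LOW.code_le h1 h3 (k := k) ((hmem C).mp hC).1
  have e : Set.ncard {A : Finset (Fin n) | A.card = k ∧ Good C A} =
      (Ps.filter fun A => Good C A).card := by
    rw [← Set.ncard_coe_finset]
    congr 1
    ext A
    simp [hP, Finset.mem_powersetCard]
  rw [e] at hcl
  exact_mod_cast hcl

end Pool.Agent.N987.QX
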