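import Pool.Agent.N987.QX.STEP

/-!
# Project QX (helper987): leaf STEP, the counting
-/

set_option autoImplicit false

namespace Pool.Agent.N987.QX

open Pool.Agent.N984.QX Finset

section

variable {n : ℕ}

def q0 (x : ZMod 2 × ZMod 2) : ZMod 2 := bb x (jj x)

/-- the pairs of distinct elements with given sum of norms -/
def prs (s : ZMod 2) : Finset ((ZMod 2 × ZMod 2) × (ZMod 2 × ZMod 2)) :=
  Finset.univ.filter fun p => p.1 ≠ p.2 ∧ q0 p.1 + q0 p.2 = s

lemma card_prs : ∀ s : ZMod 2, (prs s).card = 6 := by decide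

open Classical in
/-- the vectors which are good for `C` and `A` -/
noncomputable def Wset (C : Submodule (ZMod 2) (Vc n)) (A : Finset (Fin n)) :
    Finset (Vc (n + 2)) :=
  Finset.univ.filter fun w => w 0 ≠ w 1 ∧ B w (J w) = 0 ∧
    ∀ z : Vc n, (∀ i, i ∉ A → z i = 0) → tl w + z ∉ C

open Classical in
/-- the tails which are not allowed -/
noncomputable def Rset (C : Submodule (ZMod 2) (Vc n)) (A : Finset (Fin n)) : Finset (Vc n) :=
  Finset.univ.filter fun y => ∃ z : Vc n, (∀ i, i ∉ A → z i = 0) ∧ y + z ∈ C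

open Classical in
lemma card_supp (A : Finset (Fin n)) :
    (Finset.univ.filter fun z : Vc n => ∀ i, i ∉ A → z i = 0).card ≤ 4 ^ A.card := by
  have h : (Finset.univ.filter fun z : Vc n => ∀ i, i ∉ A → z i = 0).card ≤
      (Finset.univ : Finset (A → ZMod 2 × ZMod 2)).card := by
    apply Finset.card_le_card_of_injOn (fun (z : Vc n) (i : A) => z i)
    · intro z _; exact Finset.mem_coe.mpr (Finset.mem_univ _)
    · intro z hz z' hz' he
      rw [Finset.mem_coe, Finset.mem_filter] at hz hz'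
      funext i
      by_cases hi : i ∈ A
      · exact congrFun he ⟨i, hi⟩
      · rw [hz.2 i hi, hz'.2 i hi]
  refine h.trans (le_of_eq ?_)
  rw [Finset.card_univ, Fintype.card_fun, Fintype.card_coe]
  congr 1

open Classical in
lemma card_code (hC : S_CARD) {C : Submodule (ZMod 2) (Vc n)} (h : C ∈ Herm n) :
    (Finset.univ.filter fun v : Vc n => v ∈ C).card = 2 ^ n := by
  rw [← hC n C h.1]
  exact ((Nat.card_eq_fintype_card (α := {v // v ∈ C})).trans
    (Fintype.card_subtype (fun v => v ∈ C))).symm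

open Classical in
lemma card_Rset (hC : S_CARD) {C : Submodule (ZMod 2) (Vc n)} (h : C ∈ Herm n)
    (A : Finset (Fin n)) : (Rset C A).card ≤ 4 ^ A.card * 2 ^ n := by
  have h1 : Rset C A ⊆ ((Finset.univ.filter fun z : Vc n => ∀ i, i ∉ A → z i = 0) ×ˢ
      (Finset.univ.filter fun v : Vc n => v ∈ C)).image (fun p => p.1 + p.2) := by
    intro y hy
    rw [Rset, Finset.mem_filter] at hy
    obtain ⟨z, hz, hyz⟩ := hy.2
    rw [Finset.mem_image]
    refine ⟨(z, y + z), ?_, ?_⟩
    · rw [Finset.mem_product, Finset.mem_filter, Finset.mem_filter]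
      exact ⟨⟨Finset.mem_univ _, hz⟩, Finset.mem_univ _, hyz⟩
    · change z + (y + z) = y
      rw [add_left_comm, add_self, add_zero]
  refine (Finset.card_le_card h1).trans (Finset.card_image_le.trans ?_)
  rw [Finset.card_product, card_code hC h]
  exact Nat.mul_le_mul_right _ (card_supp A)

open Classical in
lemma card_Wset (hC : S_CARD) {C : Submodule (ZMod 2) (Vc n)} (h : C ∈ Herm n)
    (A : Finset (Fin n)) :
    (6 : ℝ) * (4 ^ n - 4 ^ A.card * 2 ^ n) ≤ (Wset C A).card := by
  have h1 : ((Rset C A)ᶜ.sigma fun y => prs (B y (J y))).card ≤ (Wset C A).card := by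
    apply Finset.card_le_card_of_injOn (fun p => ex p.2.1 p.2.2 p.1)
    · rintro ⟨y, p⟩ hp
      rw [Finset.mem_coe, Finset.mem_sigma] at hp
      obtain ⟨hy, hp⟩ := hp
      rw [prs, Finset.mem_filter] at hp
      rw [Finset.mem_coe, Wset, Finset.mem_filter]
      refine ⟨Finset.mem_univ _, hp.2.1, ?_, ?_⟩
      · rw [B_split]
        have e : bb (ex p.1 p.2 y 0) (J (ex p.1 p.2 y) 0) + bb (ex p.1 p.2 y 1) (J (ex p.1 p.2 y) 1)
            = q0 p.1 + q0 p.2 := rfl
        change bb (ex p.1 p.2 y 0) (J (ex p.1 p.2 y) 0) + bb (ex p.1 p.2 y 1) (J (ex p.1 p.2 y) 1) +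
          B y (J y) = 0
        rw [e, hp.2.2]
        exact zadd _
      · intro z hz hmem
        apply Finset.mem_compl.mp hy
        rw [Rset, Finset.mem_filter]
        exact ⟨Finset.mem_univ _, z, hz, hmem⟩
    · rintro ⟨y, p⟩ _ ⟨y', p'⟩ _ he
      have h0 : p.1 = p'.1 := congrArg (fun w : Vc (n + 2) => w 0) he
      have h1 : p.2 = p'.2 := congrArg (fun w : Vc (n + 2) => w 1) he
      have h2 : y = y' := congrArg tl he
      subst h2
      have h3 : p = p' := Prod.ext h0 h1
      rw [h3]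
  have h2 : ((Rset C A)ᶜ.sigma fun y => prs (B y (J y))).card = (Rset C A)ᶜ.card * 6 := by
    rw [Finset.card_sigma, Finset.sum_congr rfl fun y _ => card_prs _, Finset.sum_const,
      smul_eq_mul]
  have hR := card_Rset hC h A
  have hcompl : (Rset C A)ᶜ.card + (Rset C A).card = 4 ^ n := by
    rw [Finset.card_compl_add_card, Fintype.card_fun, Fintype.card_fin]
    congr 1
  rw [h2] at h1
  have h1R : (((Rset C A)ᶜ.card : ℝ)) * 6 ≤ ((Wset C A).card : ℝ) := by exact_mod_cast h1
  have hRR : ((Rset C A).card : ℝ) ≤ 4 ^ A.card * 2 ^ n := by exact_mod_cast hR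
  have hcR : ((Rset C A)ᶜ.card : ℝ) + (Rset C A).card = 4 ^ n := by exact_mod_cast hcompl
  linarith

open Classical in
/-- in a code, at most three quarters of the words have different first coordinates -/
lemma card_diff (hC : S_CARD) {D : Submodule (ZMod 2) (Vc (n + 2))} (h : D ∈ Herm (n + 2)) :
    (Finset.univ.filter fun w : Vc (n + 2) => w ∈ D ∧ w 0 ≠ w 1).card ≤ 3 * 2 ^ n := by
  set S : Finset (Vc (n + 2)) := Finset.univ.filter fun v => v ∈ D with hS
  have hSc : S.card = 2 ^ (n + 2) := card_code hC h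
  have hfib : S.card = ∑ c : ZMod 2 × ZMod 2, (S.filter fun w => w 0 + w 1 = c).card :=
    Finset.card_eq_sum_card_fiberwise (fun w _ => Finset.mem_coe.mpr (Finset.mem_univ _))
  have hle : ∀ c : ZMod 2 × ZMod 2, (S.filter fun w => w 0 + w 1 = c).card ≤
      (S.filter fun w => w 0 + w 1 = 0).card := by
    intro c
    by_cases hne : (S.filter fun w => w 0 + w 1 = c).Nonempty
    · obtain ⟨w1, hw1⟩ := hne
      rw [Finset.mem_filter, hS, Finset.mem_filter] at hw1
      apply Finset.card_le_card_of_injOn (fun w => w + w1)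
      · intro w hw
        rw [Finset.mem_coe, Finset.mem_filter, hS, Finset.mem_filter] at hw
        rw [Finset.mem_coe, Finset.mem_filter, hS, Finset.mem_filter]
        refine ⟨⟨Finset.mem_univ _, D.add_mem hw.1.2 hw1.1.2⟩, ?_⟩
        change w 0 + w1 0 + (w 1 + w1 1) = 0
        have e : w 0 + w1 0 + (w 1 + w1 1) = (w 0 + w 1) + (w1 0 + w1 1) := by abel
        rw [e, hw.2, hw1.2]
        have : ∀ c : ZMod 2 × ZMod 2, c + c = 0 := by decide
        exact this c
      · intro w _ w' _ he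
        exact add_right_cancel he
    · rw [Finset.not_nonempty_iff_eq_empty] at hne
      rw [hne, Finset.card_empty]
      exact Nat.zero_le _
  have h4 : S.card ≤ 4 * (S.filter fun w => w 0 + w 1 = 0).card := by
    rw [hfib]
    refine (Finset.sum_le_card_nsmul _ _ _ fun c _ => hle c).trans (le_of_eq ?_)
    rw [smul_eq_mul]
    rfl
  have hsplit : (Finset.univ.filter fun w : Vc (n + 2) => w ∈ D ∧ w 0 ≠ w 1).card +
      (S.filter fun w => w 0 + w 1 = 0).card = S.card := by
    rw [← Finset.card_filter_add_card_filter_not (s := S) (fun w => w 0 ≠ w 1)]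
    congr 1
    · congr 1
      ext w
      simp [hS]
    · congr 1
      ext w
      simp only [Finset.mem_filter, not_not]
      have : ∀ x y : ZMod 2 × ZMod 2, x + y = 0 ↔ x = y := by decide
      rw [this]
  have hp : (2 : ℕ) ^ (n + 2) = 4 * 2 ^ n := by rw [pow_add]; ring
  omega

open Classical in
theorem t_STEP (hC : S_CARD) : S_STEP := by
  intro n A
  have hfin : ∀ m, Finite (Submodule (ZMod 2) (Vc m)) := fun m =>
    Finite.of_injective (fun C : Submodule (ZMod 2) (Vc m) => (C : Set (Vc m)))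
      SetLike.coe_injective
  haveI := hfin n
  haveI := hfin (n + 2)
  set Y : Finset (Submodule (ZMod 2) (Vc n)) := (Set.toFinite {C ∈ Herm n | Good C A}).toFinset
    with hY
  set X : Finset (Submodule (ZMod 2) (Vc (n + 2))) :=
    (Set.toFinite {C ∈ Herm (n + 2) | Good C (up2 A)}).toFinset with hX
  have hYm : ∀ C, C ∈ Y ↔ C ∈ Herm n ∧ Good C A := fun C => Set.Finite.mem_toFinset _
  have hXm : ∀ C, C ∈ X ↔ C ∈ Herm (n + 2) ∧ Good C (up2 A) := fun C => Set.Finite.mem_toFinset _
  have hYc : gN n A = Y.card := Set.ncard_eq_toFinset_card _ _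
  have hXc : gN (n + 2) (up2 A) = X.card := Set.ncard_eq_toFinset_card _ _
  have hinj : (Y.sigma fun C => Wset C A).card ≤
      (X.sigma fun D => Finset.univ.filter fun w : Vc (n + 2) => w ∈ D ∧ w 0 ≠ w 1).card := by
    apply Finset.card_le_card_of_injOn (fun p => ⟨nb p.1 p.2, p.2⟩)
    · rintro ⟨C, w⟩ hp
      rw [Finset.mem_coe, Finset.mem_sigma] at hp
      obtain ⟨hCY, hw⟩ := hp
      rw [hYm] at hCY
      rw [Wset, Finset.mem_filter] at hw
      obtain ⟨_, h1, h2, h3⟩ := hw
      rw [Finset.mem_coe, Finset.mem_sigma, hXm, Finset.mem_filter]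
      exact ⟨⟨nb_herm hCY.1 h1 h2, nb_good hCY.1 hCY.2 h1 h3⟩, Finset.mem_univ _,
        mem_nb hCY.1 h1 h2, h1⟩
    · rintro ⟨C, w⟩ hp ⟨C', w'⟩ _ he
      rw [Finset.mem_coe, Finset.mem_sigma] at hp
      rw [Wset, Finset.mem_filter] at hp
      obtain ⟨_, _, h1, h2, h3⟩ := hp
      simp only [Sigma.mk.injEq, heq_eq_eq] at he
      obtain ⟨he1, he2⟩ := he
      subst he2
      have := nb_inj h1 h2 he1
      subst this
      rfl
  have hL : (Y.card : ℝ) * (6 * (4 ^ n - 4 ^ A.card * 2 ^ n)) ≤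
      ((Y.sigma fun C => Wset C A).card : ℝ) := by
    rw [Finset.card_sigma]
    push_cast
    rw [← nsmul_eq_mul]
    apply Finset.card_nsmul_le_sum
    intro C hCY
    exact card_Wset hC ((hYm C).mp hCY).1 A
  have hR : ((X.sigma fun D => Finset.univ.filter fun w : Vc (n + 2) => w ∈ D ∧ w 0 ≠ w 1).card : ℝ)
      ≤ X.card * (3 * 2 ^ n) := by
    rw [Finset.card_sigma]
    push_cast
    rw [← nsmul_eq_mul]
    apply Finset.sum_le_card_nsmul
    intro D hD
    exact_mod_cast card_diff hC ((hXm D).mp hD).1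
  have hchain : (Y.card : ℝ) * (6 * (4 ^ n - 4 ^ A.card * 2 ^ n)) ≤ X.card * (3 * 2 ^ n) :=
    hL.trans ((by exact_mod_cast hinj : (_ : ℝ) ≤ _).trans hR)
  rw [hYc, hXc]
  have h4 : (4 : ℝ) ^ n = 2 ^ n * 2 ^ n := by rw [← mul_pow]; norm_num
  have h4k : (4 : ℝ) ^ A.card = 2 ^ (2 * A.card) := by rw [pow_mul]; norm_num
  have hp : (0 : ℝ) < 3 * 2 ^ n := by positivity
  have hfinal : ((2 : ℝ) ^ (n + 1) - 2 ^ (2 * A.card + 1)) * Y.card * (3 * 2 ^ n) ≤
      X.card * (3 * 2 ^ n) := by
    refine le_trans (le_of_eq ?_) hchain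
    rw [h4, h4k, pow_succ, pow_succ]
    ring
  exact le_of_mul_le_mul_right hfinal hp

end

end Pool.Agent.N987.QX
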