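import Pool.Agent.N987.QX.UB3

/-!
# Project QX (helper987): sharp upper bounds, fourth part: the limit.
-/

set_option autoImplicit false

namespace Pool.Agent.N987.QX

open Pool.Agent.N984.QX Finset Filter Topology

/-- The factor `1 - 2^(-c-2r)`. -/
noncomputable def uu (c r : ℕ) : ℝ := 1 - 1 / 2 ^ (c + 2 * r)

lemma uu_pos (c r : ℕ) : 0 < uu c (r + 1) := by
  have h : (1 : ℝ) < 2 ^ (c + 2 * (r + 1)) := one_lt_pow₀ (by norm_num) (by omega)
  have : 1 / (2 : ℝ) ^ (c + 2 * (r + 1)) < 1 := by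
    rw [div_lt_one (by positivity)]; exact h
  rw [uu]; linarith

lemma del_eq (c r : ℕ) : del c (r + 1) = uu c r / uu c (r + 1) := by
  have hM : (2 : ℝ) ^ (c + 2 * (r + 1)) = 4 * 2 ^ (c + 2 * r) := by
    rw [show c + 2 * (r + 1) = c + 2 * r + 2 by ring, pow_add _ (c + 2 * r) 2]; ring
  have h1 : (1 : ℝ) ≤ 2 ^ (c + 2 * r) := one_le_pow₀ (by norm_num)
  rw [del, uu, uu, hM]
  set M : ℝ := 2 ^ (c + 2 * r)
  have h2 : 4 * M - 1 ≠ 0 := by linarith
  have h3 : M ≠ 0 := by linarith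
  have h4 : 1 - 1 / (4 * M) ≠ 0 := by
    have : 1 / (4 * M) < 1 := by rw [div_lt_one (by linarith)]; linarith
    linarith
  rw [div_eq_div_iff h2 h4]
  field_simp

lemma F_eq (c m : ℕ) : F (del c) (m + 1) * (uu c (m + 1)) ^ m = ∏ j ∈ range m, uu c (j + 1) := by
  induction m with
  | zero => simp [F]
  | succ m ih =>
    have h : F (del c) (m + 1 + 1) = F (del c) (m + 1) * (del c (m + 1 + 1)) ^ (m + 1) := by
      rw [F, F, Finset.prod_range_succ]
    rw [h, del_eq, div_pow, mul_assoc, div_mul_cancel₀ _ (pow_pos (uu_pos c (m + 1)) _).ne', pow_succ,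
      ← mul_assoc, ih, Finset.prod_range_succ]

/-- The constant. -/
noncomputable def pinf (c : ℕ) : ℝ := ∏' j : ℕ, (1 - 1 / 2 ^ (c + 2 * (j + 1)))

lemma summable_aux (c : ℕ) : Summable fun j : ℕ => -(1 / (2 : ℝ) ^ (c + 2 * (j + 1))) := by
  apply Summable.neg
  have h : Summable fun j : ℕ => (1 / 4 : ℝ) ^ j := summable_geometric_of_lt_one (by norm_num) (by norm_num)
  refine Summable.of_nonneg_of_le (fun j => by positivity) (fun j => ?_) h
  rw [one_div_pow, one_div_le_one_div (by positivity) (by positivity)]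
  calc (4 : ℝ) ^ j = 2 ^ (2 * j) := by rw [pow_mul]; norm_num
    _ ≤ 2 ^ (c + 2 * (j + 1)) := pow_le_pow_right₀ (by norm_num) (by omega)

lemma tendsto_prod (c : ℕ) :
    Tendsto (fun m => ∏ j ∈ range m, uu c (j + 1)) atTop (𝓝 (pinf c)) := by
  have h := Real.multipliable_one_add_of_summable (summable_aux c)
  have h2 := h.hasProd.tendsto_prod_nat
  have e1 : (∏' i : ℕ, (1 + -(1 / (2 : ℝ) ^ (c + 2 * (i + 1))))) = pinf c := by
    rw [pinf]; rfl
  rw [e1] at h2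
  exact h2

lemma tendsto_uu (c : ℕ) : Tendsto (fun m => (uu c (m + 1)) ^ m) atTop (𝓝 1) := by
  have hlow : ∀ m : ℕ, 1 - (1 / 2 : ℝ) ^ m ≤ (uu c (m + 1)) ^ m := by
    intro m
    have hx : (-2 : ℝ) ≤ -(1 / 2 ^ (c + 2 * (m + 1))) := by
      have : 1 / (2 : ℝ) ^ (c + 2 * (m + 1)) ≤ 1 := by
        rw [div_le_one (by positivity)]; exact one_le_pow₀ (by norm_num)
      linarith
    have h := one_add_mul_le_pow hx m
    have e : 1 + -(1 / (2 : ℝ) ^ (c + 2 * (m + 1))) = uu c (m + 1) := by rw [uu]; ring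
    rw [e] at h
    refine le_trans ?_ h
    have hm : (m : ℝ) ≤ 2 ^ m := by exact_mod_cast (Nat.lt_two_pow_self (n := m)).le
    have h3 : (m : ℝ) * (1 / 2 ^ (c + 2 * (m + 1))) ≤ (1 / 2) ^ m := by
      rw [one_div_pow, mul_one_div, div_le_div_iff₀ (by positivity) (by positivity), one_mul]
      calc (m : ℝ) * 2 ^ m ≤ 2 ^ m * 2 ^ m := mul_le_mul_of_nonneg_right hm (by positivity)
        _ = 2 ^ (m + m) := by rw [pow_add]
        _ ≤ 2 ^ (c + 2 * (m + 1)) := pow_le_pow_right₀ (by norm_num) (by omega)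
    linarith
  have hup : ∀ m : ℕ, (uu c (m + 1)) ^ m ≤ 1 := by
    intro m
    apply pow_le_one₀ (uu_pos c m).le
    rw [uu]
    have : (0 : ℝ) < 1 / 2 ^ (c + 2 * (m + 1)) := by positivity
    linarith
  have h1 : Tendsto (fun m : ℕ => 1 - (1 / 2 : ℝ) ^ m) atTop (𝓝 (1 - 0)) :=
    tendsto_const_nhds.sub (tendsto_pow_atTop_nhds_zero_of_lt_one (by norm_num) (by norm_num))
  rw [sub_zero] at h1
  exact tendsto_of_tendsto_of_tendsto_of_le_of_le h1 tendsto_const_nhds hlow hup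

lemma tendsto_F (c : ℕ) : Tendsto (fun m => F (del c) (m + 1)) atTop (𝓝 (pinf c)) := by
  have h := (tendsto_prod c).div (tendsto_uu c) one_ne_zero
  rw [div_one] at h
  refine h.congr fun m => ?_
  change (∏ j ∈ range m, uu c (j + 1)) / (uu c (m + 1)) ^ m = F (del c) (m + 1)
  rw [← F_eq]
  exact mul_div_cancel_right₀ _ (pow_pos (uu_pos c m) _).ne'

/-- The sharp upper bound. -/
theorem up_lim (h0 : S_EV0) (h1 : S_WEV) (h2 : S_DUAL) (c : ℕ) (ε : ℝ) (hε : 0 < ε) :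
    ∃ K : ℕ, ∀ k ≥ K, (Qex (2 * k + c) k : ℝ) ≤ (pinf c + ε) * ((2 * k + c).choose k) := by
  obtain ⟨m, hm⟩ := ((tendsto_F c).eventually (gt_mem_nhds (show pinf c < pinf c + ε by linarith))).exists
  have ht : Tendsto (fun k : ℕ => F (del c) (m + 1) * (1 + (m : ℝ) / ((k : ℝ) + c + 1)) ^ (m + 1)) atTop
      (𝓝 (F (del c) (m + 1) * (1 + 0) ^ (m + 1))) := by
    apply Tendsto.const_mul
    apply Tendsto.pow
    apply Tendsto.const_add
    apply Tendsto.div_atTop tendsto_const_nhds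
    have : Tendsto (fun k : ℕ => (k : ℝ)) atTop atTop := tendsto_natCast_atTop_atTop
    exact (this.atTop_add tendsto_const_nhds).atTop_add tendsto_const_nhds
  rw [add_zero, one_pow, mul_one] at ht
  obtain ⟨K, hK⟩ := eventually_atTop.mp (ht.eventually (gt_mem_nhds hm))
  refine ⟨max K (m + 1), fun k hk => ?_⟩
  have hkK : K ≤ k := (le_max_left _ _).trans hk
  have hkm : m + 1 ≤ k := (le_max_right _ _).trans hk
  have h := ub h0 h1 h2 c k (m + 1) hkm
  have hd : ((k + c + 1 : ℕ) : ℝ) ^ (m + 1) ≤ ((k + c + (m + 1)).descFactorial (m + 1) : ℝ) := by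
    have := Nat.pow_sub_le_descFactorial (k + c + (m + 1)) (m + 1)
    rw [show k + c + (m + 1) + 1 - (m + 1) = k + c + 1 by omega] at this
    exact_mod_cast this
  have hq : (0 : ℝ) ≤ (Qex (2 * k + c) k : ℝ) := Nat.cast_nonneg _
  have hpos : (0 : ℝ) < ((k + c + 1 : ℕ) : ℝ) ^ (m + 1) := by positivity
  have hC : (0 : ℝ) ≤ ((2 * k + c).choose k : ℝ) := Nat.cast_nonneg _
  have h3 : (Qex (2 * k + c) k : ℝ) * ((k + c + 1 : ℕ) : ℝ) ^ (m + 1) ≤
      F (del c) (m + 1) * ((k + c + (m + 1) : ℕ) : ℝ) ^ (m + 1) * ((2 * k + c).choose k) :=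
    (mul_le_mul_of_nonneg_left hd hq).trans h
  have h4 : ((k + c + (m + 1) : ℕ) : ℝ) ^ (m + 1) =
      (1 + (m : ℝ) / ((k : ℝ) + c + 1)) ^ (m + 1) * ((k + c + 1 : ℕ) : ℝ) ^ (m + 1) := by
    rw [← mul_pow]
    congr 1
    have : (k : ℝ) + c + 1 ≠ 0 := by positivity
    push_cast
    field_simp
    ring
  rw [h4] at h3
  have h5 : (Qex (2 * k + c) k : ℝ) * ((k + c + 1 : ℕ) : ℝ) ^ (m + 1) ≤
      (F (del c) (m + 1) * (1 + (m : ℝ) / ((k : ℝ) + c + 1)) ^ (m + 1) *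
        ((2 * k + c).choose k)) * ((k + c + 1 : ℕ) : ℝ) ^ (m + 1) := by
    refine h3.trans (le_of_eq ?_)
    ring
  have h6 := le_of_mul_le_mul_right h5 hpos
  exact h6.trans (mul_le_mul_of_nonneg_right (hK k hkK).le hC)

end Pool.Agent.N987.QX
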