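import Pool.Agent.N984.QX.Fin2
import Pool.Agent.N985.QX.TOT
import Pool.Agent.N986.QX.PERM
import Pool.Agent.N986.QX.LIMX
import Pool.Agent.N987.QX.STEP2
import Pool.Agent.N987.QX.FRAC
import Pool.Agent.N987.QX.UB4

/-!
# Project QX (helper987): the exact limit
-/

set_option autoImplicit false

namespace Pool.Agent.N987.QX

open Pool.Agent.N984.QX Finset Filter Topology

theorem lowx : S_LOWX :=
  t_LOWX (t_FRAC (t_STEP Pool.Agent.N881.QX.t_CARD)
    (Pool.Agent.N985.QX.TOT.t_TOT t_TRANS Pool.Agent.N881.QX.t_CARD Pool.Agent.N432.QX.t_ISO)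
    Pool.Agent.N986.QX.t_PERM)
    Pool.Agent.N985.QX.STATE.t_STATE Pool.Agent.N986.QX.t_NE Pool.Agent.N985.QX.LOW.t_QEX

theorem upx (c : ℕ) (ε : ℝ) (hε : 0 < ε) :
    ∃ K : ℕ, ∀ k ≥ K, (Qex (2 * k + c) k : ℝ) ≤ (pinf c + ε) * ((2 * k + c).choose k) :=
  up_lim Pool.Agent.N195.QX.t_EV0 Pool.Agent.N195.QX.t_WEV Pool.Agent.N285.QX.t_DUAL c ε hε

theorem pinf_nonneg (c : ℕ) : 0 ≤ pinf c :=
  ge_of_tendsto' (tendsto_prod c) fun _ => Finset.prod_nonneg fun j _ => (uu_pos c j).le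

/-- The exact limit for even `c`. -/
theorem limit_even (c : ℕ) (hc : Even c) :
    Tendsto (fun k : ℕ => (Qex (2 * k + c) k : ℝ) / (2 * k + c).choose k) atTop (𝓝 (pinf c)) := by
  have hC : ∀ k : ℕ, (0 : ℝ) < ((2 * k + c).choose k : ℝ) := by
    intro k
    have : 0 < (2 * k + c).choose k := Nat.choose_pos (by omega)
    exact_mod_cast this
  have hlow : ∀ k : ℕ, pinf c * (1 - k / 2 ^ (k + c)) ≤
      (Qex (2 * k + c) k : ℝ) / (2 * k + c).choose k := by
    intro k
    rw [le_div_iff₀ (hC k)]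
    refine le_trans ?_ (lowx k c hc)
    exact mul_le_mul_of_nonneg_right (Pool.Agent.N986.QX.t_LIMX c k) (hC k).le
  have h0 : Tendsto (fun k : ℕ => (k : ℝ) / 2 ^ (k + c)) atTop (𝓝 0) := by
    have h1 : Tendsto (fun k : ℕ => (k : ℝ) * (1 / 2 : ℝ) ^ k) atTop (𝓝 0) :=
      tendsto_self_mul_const_pow_of_lt_one (by norm_num) (by norm_num)
    refine squeeze_zero (fun k => by positivity) (fun k => ?_) h1
    rw [one_div_pow, mul_one_div]
    apply div_le_div_of_nonneg_left (by positivity) (by positivity)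
    exact pow_le_pow_right₀ (by norm_num) (by omega)
  have hl : Tendsto (fun k : ℕ => pinf c * (1 - k / 2 ^ (k + c))) atTop (𝓝 (pinf c)) := by
    have := (tendsto_const_nhds (x := (1 : ℝ))).sub h0
    have := this.const_mul (pinf c)
    simpa using this
  rw [tendsto_order]
  constructor
  · intro a ha
    filter_upwards [hl.eventually (lt_mem_nhds ha)] with k hk
    exact hk.trans_le (hlow k)
  · intro a ha
    obtain ⟨K, hK⟩ := upx c ((a - pinf c) / 2) (by linarith)
    filter_upwards [eventually_ge_atTop K] with k hk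
    rw [div_lt_iff₀ (hC k)]
    refine lt_of_le_of_lt (hK k hk) ?_
    apply mul_lt_mul_of_pos_right _ (hC k)
    linarith

end Pool.Agent.N987.QX
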