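import Pool.Agent.N987.QX.FINX

/-!
# Project QX (helper987): explicit forms and odd `c`
-/

set_option autoImplicit false

namespace Pool.Agent.N987.QX

open Pool.Agent.N984.QX Finset Filter Topology

/-- The closed form of `R`. -/
theorem R_eq (k : ℕ) :
    (∀ c, R c k = ∏ j ∈ range (k / 2),
      (1 - 1 / (2 : ℝ) ^ (c + 2 * (j + 1))) / (1 + 1 / 2 ^ (2 * k + c - 1 - 2 * j))) ∧
    (∀ c, R c (k + 1) = ∏ j ∈ range ((k + 1) / 2),
      (1 - 1 / (2 : ℝ) ^ (c + 2 * (j + 1))) / (1 + 1 / 2 ^ (2 * (k + 1) + c - 1 - 2 * j))) := by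
  induction k with
  | zero => refine ⟨fun c => ?_, fun c => ?_⟩ <;> simp [R]
  | succ k ih =>
    refine ⟨ih.2, fun c => ?_⟩
    rw [R, ih.1 (c + 2), show (k + 1 + 1) / 2 = k / 2 + 1 by omega, Finset.prod_range_succ',
      mul_comm]
    congr 1
    · apply Finset.prod_congr rfl
      intro j _
      rw [show c + 2 + 2 * (j + 1) = c + 2 * (j + 1 + 1) by ring,
        show 2 * k + (c + 2) - 1 - 2 * j = 2 * (k + 1 + 1) + c - 1 - 2 * (j + 1) by omega]
    · rw [show 2 * (k + 1 + 1) + c - 1 - 2 * 0 = 2 * k + c + 3 by omega,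
        show 2 * k + c + 3 = (2 * k + 1) + (c + 2) by ring, show c + 2 * (0 + 1) = c + 2 by ring,
        pow_add _ (2 * k + 1) (c + 2)]
      have h1 : (0 : ℝ) < 2 ^ (2 * k + 1) := by positivity
      have h2 : (0 : ℝ) < 2 ^ (c + 2) := by positivity
      have h3 : (2 : ℝ) ^ (2 * k + 1) * 2 ^ (c + 2) + 1 ≠ 0 := by positivity
      rw [div_eq_div_iff h3 (by positivity)]
      field_simp

theorem lower_explicit (c k : ℕ) (hc : Even c) :
    (∏ j ∈ range (k / 2),
      (1 - 1 / (2 : ℝ) ^ (c + 2 * (j + 1))) / (1 + 1 / 2 ^ (2 * k + c - 1 - 2 * j))) *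
      (2 * k + c).choose k ≤ Qex (2 * k + c) k := by
  rw [← (R_eq k).1 c]
  exact lowx k c hc

/-- Odd `c`: the lower bound. -/
theorem lower_odd (c : ℕ) (hc : Even c) (ε : ℝ) (hε : 0 < ε) :
    ∃ K : ℕ, ∀ k ≥ K, (pinf c - ε) * (2 * k + (c + 1)).choose k ≤ (Qex (2 * k + (c + 1)) k : ℝ) := by
  have ht := (limit_even c hc).eventually (lt_mem_nhds (show pinf c - ε < pinf c by linarith))
  obtain ⟨K, hK⟩ := eventually_atTop.mp ht
  refine ⟨K, fun k hk => ?_⟩
  have h := hK (k + 1) (by omega)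
  have hC : (0 : ℝ) < ((2 * (k + 1) + c).choose (k + 1) : ℝ) := by
    have : 0 < (2 * (k + 1) + c).choose (k + 1) := Nat.choose_pos (by omega)
    exact_mod_cast this
  rw [lt_div_iff₀ hC] at h
  have hred := Pool.Agent.N986.QX.t_RED (2 * k + (c + 1)) k
  have e : 2 * k + (c + 1) + 1 = 2 * (k + 1) + c := by ring
  rw [e] at hred
  have e' : (2 * (k : ℝ) + (c + 1)) + 1 = 2 * ((k : ℝ) + 1) + c := by ring
  have h6 : ((k : ℝ) + 1) * Qex (2 * (k + 1) + c) (k + 1) ≤
      (2 * (k : ℝ) + (c + 1) + 1) * Qex (2 * k + (c + 1)) k := by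
    rw [e']
    exact_mod_cast hred
  have h7 : ((2 * (k : ℝ) + (c + 1)) + 1) * (2 * k + (c + 1)).choose k =
      (2 * (k + 1) + c).choose (k + 1) * (k + 1) := by
    have := Nat.add_one_mul_choose_eq (2 * k + (c + 1)) k
    rw [e] at this
    rw [e']
    exact_mod_cast this
  have h8 : (0 : ℝ) < (2 * k + (c + 1) : ℝ) + 1 := by positivity
  have h9 : (0 : ℝ) < (k : ℝ) + 1 := by positivity
  have h10 : ((2 * k + (c + 1) : ℝ) + 1) * ((pinf c - ε) * (2 * k + (c + 1)).choose k) ≤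
      ((2 * k + (c + 1) : ℝ) + 1) * Qex (2 * k + (c + 1)) k := by
    calc ((2 * k + (c + 1) : ℝ) + 1) * ((pinf c - ε) * (2 * k + (c + 1)).choose k) =
          (k + 1) * ((pinf c - ε) * (2 * (k + 1) + c).choose (k + 1)) := by
          linear_combination (pinf c - ε) * h7
      _ ≤ (k + 1) * Qex (2 * (k + 1) + c) (k + 1) := mul_le_mul_of_nonneg_left h.le h9.le
      _ ≤ _ := h6
  exact le_of_mul_le_mul_left h10 h8

theorem pinf_zero_lt : pinf 0 < 0.689 := by
  have hanti : Antitone fun m => ∏ j ∈ Finset.range m, uu 0 (j + 1) := by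
    apply antitone_nat_of_succ_le
    intro m
    rw [Finset.prod_range_succ]
    apply mul_le_of_le_one_right
    · exact Finset.prod_nonneg fun j _ => (uu_pos 0 j).le
    · rw [uu]
      have : (0 : ℝ) < 1 / 2 ^ (0 + 2 * (m + 1)) := by positivity
      linarith
  have h := hanti.le_of_tendsto (tendsto_prod 0) 6
  refine lt_of_le_of_lt h ?_
  simp only [Finset.prod_range_succ, Finset.prod_range_zero, uu]
  norm_num

theorem pinf_zero_ge : 2 / 3 ≤ pinf 0 := by
  apply le_of_forall_pos_le_add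
  intro ε hε
  obtain ⟨N, hN⟩ := Pool.Agent.N984.QX.lim.1 ε hε
  have h : 2 / 3 - ε ≤ pinf 0 := by
    apply ge_of_tendsto (limit_even 0 Even.zero)
    filter_upwards [eventually_ge_atTop N] with k hk
    have hC : (0 : ℝ) < ((2 * k + 0).choose k : ℝ) := by
      have : 0 < (2 * k + 0).choose k := Nat.choose_pos (by omega)
      exact_mod_cast this
    rw [le_div_iff₀ hC]
    have := hN (2 * k) (by omega)
    rw [Nat.mul_div_cancel_left k (by norm_num)] at this
    exact this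
  linarith

end Pool.Agent.N987.QX
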