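import Pool.Agent.N987.QX.FINY

/-!
# Project QX (helper987): the uniform form for even `n`
-/

set_option autoImplicit false

namespace Pool.Agent.N987.QX

open Pool.Agent.N984.QX Finset Filter Topology

theorem pinf_le_one (c : ℕ) : pinf c ≤ 1 := by
  refine le_of_tendsto' (tendsto_prod c) fun m => ?_
  apply Finset.prod_le_one
  · intro j _; exact (uu_pos c j).le
  · intro j _
    rw [uu]
    have : (0 : ℝ) < 1 / 2 ^ (c + 2 * (j + 1)) := by positivity
    linarith

/-- For even `n` the proportion is `pinf (n - 2k) + o(1)`, uniformly in `k`. -/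
theorem uniform_even (ε : ℝ) (hε : 0 < ε) : ∃ N : ℕ, ∀ n k : ℕ, Even n → N ≤ n → 2 * k ≤ n →
    |(Qex n k : ℝ) / n.choose k - pinf (n - 2 * k)| < ε := by
  obtain ⟨D, hD⟩ := Pool.Agent.N984.QX.lim.2.1 (ε / 2) (by linarith)
  have hC : ∀ k c : ℕ, (0 : ℝ) < ((2 * k + c).choose k : ℝ) := by
    intro k c
    have : 0 < (2 * k + c).choose k := Nat.choose_pos (by omega)
    exact_mod_cast this
  have hp2 : ∀ c, Even c → D ≤ c → 1 - ε / 2 ≤ pinf c := by
    intro c hc hcD
    refine ge_of_tendsto' (limit_even c hc) fun k => ?_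
    rw [le_div_iff₀ (hC k c)]
    exact hD (2 * k + c) k (by omega)
  have hfin : ∀ c, ∃ K : ℕ, Even c → ∀ k ≥ K,
      |(Qex (2 * k + c) k : ℝ) / (2 * k + c).choose k - pinf c| < ε := by
    intro c
    by_cases hc : Even c
    · obtain ⟨K, hK⟩ := Metric.tendsto_atTop.mp (limit_even c hc) ε hε
      refine ⟨K, fun _ k hk => ?_⟩
      have := hK k hk
      rwa [Real.dist_eq] at this
    · exact ⟨0, fun h => absurd h hc⟩
  choose K hK using hfin
  refine ⟨2 * ((Finset.range D).sup K) + D, ?_⟩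
  intro n k hn hN hk
  obtain ⟨c, rfl⟩ : ∃ c, n = 2 * k + c := ⟨n - 2 * k, by omega⟩
  have hc : Even c := by
    have := (Nat.even_add.mp hn).mp (even_two_mul k)
    exact this
  rw [Nat.add_sub_cancel_left]
  by_cases hcD : D ≤ c
  · have h1 : 1 - ε / 2 ≤ (Qex (2 * k + c) k : ℝ) / (2 * k + c).choose k := by
      rw [le_div_iff₀ (hC k c)]
      exact hD (2 * k + c) k (by omega)
    have h2 : (Qex (2 * k + c) k : ℝ) / (2 * k + c).choose k ≤ 1 := by
      rw [div_le_one (hC k c)]
      exact_mod_cast le_choose (2 * k + c) k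
    have h3 := hp2 c hc hcD
    have h4 := pinf_le_one c
    rw [abs_sub_lt_iff]
    constructor <;> linarith
  · have h5 : K c ≤ (Finset.range D).sup K :=
      Finset.le_sup (f := K) (Finset.mem_range.mpr (by omega))
    exact hK c hc k (by omega)

end Pool.Agent.N987.QX
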