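import Pool.Agent.N987.QX.Stm4
import Pool.Agent.N987.QX.TRANS

/-!
# Project QX (helper987): leaf STEP
-/

set_option autoImplicit false

namespace Pool.Agent.N987.QX

open Pool.Agent.N984.QX Finset

section

variable {n : ℕ}

/-- the last `n` coordinates -/
def tl (w : Vc (n + 2)) : Vc n := fun i => w i.succ.succ

/-- the vector with the given coordinates -/
def ex (x y : ZMod 2 × ZMod 2) (w : Vc n) : Vc (n + 2) :=
  Fin.cons (α := fun _ => ZMod 2 × ZMod 2) x (Fin.cons (α := fun _ => ZMod 2 × ZMod 2) y w)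

def bb (x y : ZMod 2 × ZMod 2) : ZMod 2 := x.1 * y.2 + x.2 * y.1

def jj (x : ZMod 2 × ZMod 2) : ZMod 2 × ZMod 2 := (x.2, x.1 + x.2)

lemma ex_zero (x y : ZMod 2 × ZMod 2) (w : Vc n) : ex x y w 0 = x := rfl
lemma ex_one (x y : ZMod 2 × ZMod 2) (w : Vc n) : ex x y w 1 = y := rfl
lemma tl_ex (x y : ZMod 2 × ZMod 2) (w : Vc n) : tl (ex x y w) = w := rfl
lemma tl_add (v w : Vc (n + 2)) : tl (v + w) = tl v + tl w := rfl
lemma tl_J (v : Vc (n + 2)) : tl (J v) = J (tl v) := rfl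
lemma tl_zero : tl (0 : Vc (n + 2)) = 0 := rfl

lemma ext2 {v w : Vc (n + 2)} (h0 : v 0 = w 0) (h1 : v 1 = w 1) (h : tl v = tl w) : v = w := by
  funext i
  refine Fin.cases h0 (fun i => ?_) i
  refine Fin.cases h1 (fun i => ?_) i
  exact congrFun h i

lemma B_split (v w : Vc (n + 2)) :
    B v w = bb (v 0) (w 0) + bb (v 1) (w 1) + B (tl v) (tl w) := by
  unfold B
  rw [Fin.sum_univ_succ, Fin.sum_univ_succ, ← add_assoc]
  rfl

lemma bb_self (x : ZMod 2 × ZMod 2) : bb x x = 0 := by revert x; decide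

lemma bb_sep : ∀ x y : ZMod 2 × ZMod 2, (∀ z, bb x z + bb y z = 0) → x = y := by decide

lemma bb_nz : ∀ x y : ZMod 2 × ZMod 2, x ≠ y →
    bb (1, 0) x + bb (1, 0) y ≠ 0 ∨ bb (1, 0) (jj x) + bb (1, 0) (jj y) ≠ 0 := by decide

lemma bb_z : ∀ x y z : ZMod 2 × ZMod 2, y ≠ z → bb x y + bb x z = 0 →
    bb x (jj y) + bb x (jj z) = 0 → x = 0 := by decide

lemma zadd : ∀ x : ZMod 2, x + x = 0 := by decide

/-- the code with first coordinates equal -/
def ext1 (C : Submodule (ZMod 2) (Vc n)) : Submodule (ZMod 2) (Vc (n + 2)) where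
  carrier := {w | w 0 = w 1 ∧ tl w ∈ C}
  add_mem' := by
    rintro a b ⟨h1, h2⟩ ⟨h3, h4⟩
    refine ⟨?_, ?_⟩
    · change a 0 + b 0 = a 1 + b 1
      rw [h1, h3]
    · rw [tl_add]; exact C.add_mem h2 h4
  zero_mem' := ⟨rfl, C.zero_mem⟩
  smul_mem' := by
    rintro c a ⟨h1, h2⟩
    refine ⟨?_, ?_⟩
    · change c • a 0 = c • a 1
      rw [h1]
    · exact C.smul_mem c h2

lemma mem_ext1 {C : Submodule (ZMod 2) (Vc n)} {w : Vc (n + 2)} :
    w ∈ ext1 C ↔ w 0 = w 1 ∧ tl w ∈ C := Iff.rfl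

lemma B_zero_right (v : Vc n) : B v 0 = 0 := by
  simp [B]

lemma B_zero_left (v : Vc n) : B 0 v = 0 := by
  simp [B]

lemma ext1_herm {C : Submodule (ZMod 2) (Vc n)} (hC : C ∈ Herm n) : ext1 C ∈ Herm (n + 2) := by
  obtain ⟨h1, h2⟩ := hC
  refine ⟨fun v => ⟨?_, ?_⟩, ?_⟩
  · rintro ⟨hv0, hv⟩ w ⟨hw0, hw⟩
    rw [B_split, hv0, hw0, zadd, zero_add]
    exact (h1 _).mp hv _ hw
  · intro h
    refine ⟨?_, ?_⟩
    · apply bb_sep
      intro z
      have := h (ex z z 0) ⟨rfl, C.zero_mem⟩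
      rw [B_split, ex_zero, ex_one, tl_ex, B_zero_right, add_zero] at this
      exact this
    · rw [h1]
      intro w hw
      have := h (ex 0 0 w) ⟨rfl, hw⟩
      rw [B_split, ex_zero, ex_one, tl_ex] at this
      have e : ∀ x : ZMod 2 × ZMod 2, bb x 0 = 0 := by decide
      rw [e, e, zero_add, zero_add] at this
      exact this
  · rintro v ⟨hv0, hv⟩
    refine ⟨?_, ?_⟩
    · change jj (v 0) = jj (v 1)
      rw [hv0]
    · rw [tl_J]; exact h2 _ hv

/-- the special vector -/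
def v0 : Vc (n + 2) := ex (1, 0) (1, 0) 0

lemma v0_mem (C : Submodule (ZMod 2) (Vc n)) : (v0 : Vc (n + 2)) ∈ ext1 C := ⟨rfl, C.zero_mem⟩

lemma B_v0 (w : Vc (n + 2)) : B v0 w = bb (1, 0) (w 0) + bb (1, 0) (w 1) := by
  rw [B_split, v0, ex_zero, ex_one, tl_ex, B_zero_left, add_zero]

lemma iso_v0 : B (v0 : Vc (n + 2)) (J v0) = 0 := by
  rw [B_v0]
  exact zadd _

lemma exists_ww (w : Vc (n + 2)) (h : w 0 ≠ w 1) :
    ∃ w', (w' = w ∨ w' = J w ∨ w' = J (J w)) ∧ B v0 w' = 0 ∧ B v0 (J w') = 1 := by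
  have hnz : B v0 w ≠ 0 ∨ B v0 (J w) ≠ 0 := by
    rw [B_v0, B_v0]; exact bb_nz _ _ h
  rcases z01 (B v0 w) with h0 | h0 <;> rcases z01 (B v0 (J w)) with h1 | h1
  · rcases hnz with h | h
    · exact absurd h0 h
    · exact absurd h1 h
  · exact ⟨w, Or.inl rfl, h0, h1⟩
  · refine ⟨J w, Or.inr (Or.inl rfl), h1, ?_⟩
    rw [JJ, B_add_right, h0, h1]
    decide
  · refine ⟨J (J w), Or.inr (Or.inr rfl), ?_, ?_⟩
    · rw [JJ, B_add_right, h0, h1]
      decide
    · rw [JJJ, h0]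

open Classical in
noncomputable def ww (w : Vc (n + 2)) : Vc (n + 2) :=
  if h : w 0 ≠ w 1 then (exists_ww w h).choose else 0

lemma ww_spec {w : Vc (n + 2)} (h : w 0 ≠ w 1) :
    (ww w = w ∨ ww w = J w ∨ ww w = J (J w)) ∧ B v0 (ww w) = 0 ∧ B v0 (J (ww w)) = 1 := by
  rw [ww, dif_pos h]
  exact (exists_ww w h).choose_spec

lemma iso_ww {w : Vc (n + 2)} (h : w 0 ≠ w 1) (hw : B w (J w) = 0) : B (ww w) (J (ww w)) = 0 := by
  rcases (ww_spec h).1 with e | e | e
  · rw [e]; exact hw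
  · rw [e]; exact iso_J hw
  · rw [e]; exact iso_J (iso_J hw)

lemma iso_aa {w : Vc (n + 2)} (h : w 0 ≠ w 1) (hw : B w (J w) = 0) :
    B (v0 + ww w) (J (v0 + ww w)) = 0 := by
  have h0 := (ww_spec h).2.1
  have h1 := (ww_spec h).2.2
  rw [J_add, B_add_left, B_add_right, B_add_right, iso_v0, iso_ww h hw, h1, B_comm (ww w) (J v0),
    B_J_left, h0, h1]
  linear_combination two0

lemma t_v0 {w : Vc (n + 2)} (h : w 0 ≠ w 1) : t (v0 + ww w) v0 = ww w := by
  have h0 := (ww_spec h).2.1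
  have h1 := (ww_spec h).2.2
  rw [t_apply, J_add, B_add_right, B_add_right, iso_v0, h1, h0, B_self, zero_add, zero_add,
    one_smul, zero_smul, add_zero, ← add_assoc, add_self, zero_add]

/-- the neighbour -/
noncomputable def nb (C : Submodule (ZMod 2) (Vc n)) (w : Vc (n + 2)) :
    Submodule (ZMod 2) (Vc (n + 2)) := (ext1 C).comap (t (v0 + ww w))

lemma nb_herm {C : Submodule (ZMod 2) (Vc n)} (hC : C ∈ Herm n) {w : Vc (n + 2)} (h : w 0 ≠ w 1)
    (hw : B w (J w) = 0) : nb C w ∈ Herm (n + 2) := herm_comap (iso_aa h hw) (ext1_herm hC)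

lemma mem_nb {C : Submodule (ZMod 2) (Vc n)} (hC : C ∈ Herm n) {w : Vc (n + 2)} (h : w 0 ≠ w 1)
    (hw : B w (J w) = 0) : w ∈ nb C w := by
  have hH := nb_herm hC h hw
  have h1 : ww w ∈ nb C w := by
    have e : t (v0 + ww w) (ww w) = v0 := by
      have h2 := t_t (iso_aa h hw) v0
      rwa [t_v0 h] at h2
    rw [nb, Submodule.mem_comap, e]
    exact v0_mem C
  rcases (ww_spec h).1 with e | e | e
  · rw [e] at h1; exact h1
  · rw [e] at h1
    have := hH.2 _ (hH.2 _ h1)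
    rwa [JJJ] at this
  · rw [e] at h1
    have := hH.2 _ h1
    rwa [JJJ] at this

lemma nb_inj {C D : Submodule (ZMod 2) (Vc n)} {w : Vc (n + 2)} (h : w 0 ≠ w 1)
    (hw : B w (J w) = 0) (he : nb C w = nb D w) : C = D := by
  have ha := iso_aa h hw
  have h1 : ext1 C = ext1 D := by
    ext x
    have hx := congrArg (fun E : Submodule (ZMod 2) (Vc (n + 2)) => t (v0 + ww w) x ∈ E) he
    simp only [nb, Submodule.mem_comap, t_t ha] at hx
    exact Iff.of_eq hx
  ext y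
  have hy := congrArg (fun E : Submodule (ZMod 2) (Vc (n + 2)) => ex 0 0 y ∈ E) h1
  simp only [mem_ext1, ex_zero, ex_one, tl_ex, true_and] at hy
  exact Iff.of_eq hy

lemma J_zero : J (0 : Vc n) = 0 := rfl

lemma J_supp {A : Finset (Fin n)} {z : Vc n} (hz : ∀ i, i ∉ A → z i = 0) :
    ∀ i, i ∉ A → J z i = 0 := by
  intro i hi
  change ((z i).2, (z i).1 + (z i).2) = (0 : ZMod 2 × ZMod 2)
  rw [hz i hi]
  rfl

/-- the neighbour is good -/
lemma nb_good {C : Submodule (ZMod 2) (Vc n)} (hC : C ∈ Herm n) {A : Finset (Fin n)}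
    (hG : Good C A) {w : Vc (n + 2)} (h : w 0 ≠ w 1)
    (hw2 : ∀ z : Vc n, (∀ i, i ∉ A → z i = 0) → tl w + z ∉ C) : Good (nb C w) (up2 A) := by
  intro x hx hxA
  rw [nb, Submodule.mem_comap, t_apply] at hx
  have hxt : ∀ i, i ∉ A → tl x i = 0 := by
    intro i hi
    apply hxA
    intro hmem
    rw [up2, Finset.mem_insert, Finset.mem_insert, Finset.mem_map] at hmem
    rcases hmem with h1 | h1 | ⟨j, hj, hji⟩
    · exact absurd h1 (Fin.succ_ne_zero _)
    · have : i.succ = 0 := by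
        apply Fin.succ_injective; exact h1
      exact absurd this (Fin.succ_ne_zero _)
    · rw [Finset.mem_map] at hj
      obtain ⟨l, hl, hlj⟩ := hj
      rw [← hlj] at hji
      have h3 : l = i := Fin.succ_injective _ (Fin.succ_injective _ hji)
      exact hi (h3 ▸ hl)
  -- no multiple of tl w plus a vector supported in A is in C
  have hw3 : ∀ z : Vc n, (∀ i, i ∉ A → z i = 0) → J (tl w) + z ∉ C := by
    intro z hz hmem
    have h1 := hC.2 _ (hC.2 _ hmem)
    rw [J_add, J_add, JJJ] at h1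
    exact hw2 _ (J_supp (J_supp hz)) h1
  have hw4 : ∀ z : Vc n, (∀ i, i ∉ A → z i = 0) → J (J (tl w)) + z ∉ C := by
    intro z hz hmem
    have h1 := hC.2 _ hmem
    rw [J_add, JJJ] at h1
    exact hw2 _ (J_supp hz) h1
  have hww : ∀ z : Vc n, (∀ i, i ∉ A → z i = 0) →
      tl (ww w) + z ∉ C ∧ J (tl (ww w)) + z ∉ C ∧ J (J (tl (ww w))) + z ∉ C := by
    intro z hz
    rcases (ww_spec h).1 with e | e | e
    · rw [e]; exact ⟨hw2 z hz, hw3 z hz, hw4 z hz⟩
    · rw [e, tl_J, JJJ]; exact ⟨hw3 z hz, hw4 z hz, hw2 z hz⟩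
    · rw [e, tl_J, tl_J, JJJ]; exact ⟨hw4 z hz, hw2 z hz, hw3 z hz⟩
  have hJ1 := (ext1_herm hC).2
  have hv := v0_mem (n := n) C
  set a : Vc (n + 2) := v0 + ww w with ha
  set c1 := B x (J a) with hc1
  set c2 := B x a with hc2
  have hy : x + (c1 • ww w + c2 • J (ww w)) ∈ ext1 C := by
    have e : x + (c1 • ww w + c2 • J (ww w)) = x + (c1 • a + c2 • J a) + (c1 • v0 + c2 • J v0) := by
      rw [ha, J_add, smul_add, smul_add]
      have e1 := add_self (c1 • (v0 : Vc (n + 2)))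
      have e2 := add_self (c2 • J (v0 : Vc (n + 2)))
      calc x + (c1 • ww w + c2 • J (ww w)) =
          x + (c1 • ww w + c2 • J (ww w)) + (c1 • v0 + c1 • v0) + (c2 • J v0 + c2 • J v0) := by
            rw [e1, e2, add_zero, add_zero]
        _ = _ := by abel
    rw [e]
    exact (ext1 C).add_mem hx ((ext1 C).add_mem ((ext1 C).smul_mem _ hv)
      ((ext1 C).smul_mem _ (hJ1 _ hv)))
  have htl : tl x + (c1 • tl (ww w) + c2 • J (tl (ww w))) ∈ C := hy.2
  have hc10 : c1 = 0 ∧ c2 = 0 := by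
    rcases z01 c1 with h1 | h1 <;> rcases z01 c2 with h2 | h2
    · exact ⟨h1, h2⟩
    · exfalso
      rw [h1, h2, zero_smul, one_smul, zero_add, add_comm] at htl
      exact (hww _ hxt).2.1 htl
    · exfalso
      rw [h1, h2, zero_smul, one_smul, add_zero, add_comm] at htl
      exact (hww _ hxt).1 htl
    · exfalso
      rw [h1, h2, one_smul, one_smul, add_comm (tl (ww w)), ← JJ, add_comm] at htl
      exact (hww _ hxt).2.2 htl
  rw [hc10.1, hc10.2, zero_smul, zero_smul, add_zero, add_zero] at hy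
  have hx0 : tl x = 0 := hG _ hy.2 hxt
  have hBv : B x v0 = 0 := ((ext1_herm hC).1 x).mp hy _ hv
  have hBJv : B x (J v0) = 0 := ((ext1_herm hC).1 x).mp hy _ (hJ1 _ hv)
  have hb1 : B x (ww w) = 0 := by
    have := hc10.2
    rw [hc2, ha, B_add_right, hBv, zero_add] at this
    exact this
  have hb2 : B x (J (ww w)) = 0 := by
    have := hc10.1
    rw [hc1, ha, J_add, B_add_right, hBJv, zero_add] at this
    exact this
  have hne : ww w 0 ≠ ww w 1 := by
    intro he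
    have h1 := (ww_spec h).2.2
    rw [B_v0] at h1
    have : (J (ww w)) 0 = (J (ww w)) 1 := by
      change jj (ww w 0) = jj (ww w 1)
      rw [he]
    rw [this, zadd] at h1
    exact absurd h1 (by decide)
  rw [B_split, hx0, B_zero_left, add_zero, hy.1] at hb1 hb2
  have hx1 : x 1 = 0 := bb_z (x 1) _ _ hne hb1 hb2
  exact ext2 (hy.1.trans hx1) hx1 hx0

end

end Pool.Agent.N987.QX
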