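import Pool.Agent.N984.QX.Stm

/-!
# Project QX (helper987): the exact lower bound. Statements.
-/

set_option autoImplicit false

namespace Pool.Agent.N987.QX

open Pool.Agent.N984.QX

/-- The number of Hermitian self-dual codes for which `A` is good. -/
noncomputable def gN (n : ℕ) (A : Finset (Fin n)) : ℕ := Set.ncard {C ∈ Herm n | Good C A}

/-- `{0, 1}` and the image of `A` under `i ↦ i + 2`. -/
def up2 {n : ℕ} (A : Finset (Fin n)) : Finset (Fin (n + 2)) :=
  insert 0 (insert 1 ((A.map (Fin.succEmb n)).map (Fin.succEmb (n + 1))))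

/-- STEP. -/
def S_STEP : Prop :=
  ∀ (n : ℕ) (A : Finset (Fin n)),
    ((2 : ℝ) ^ (n + 1) - 2 ^ (2 * A.card + 1)) * gN n A ≤ gN (n + 2) (up2 A)

/-- TOT. -/
def S_TOT : Prop :=
  ∀ n : ℕ, Even n → (Set.ncard (Herm (n + 2)) : ℝ) ≤ (2 ^ (n + 1) + 1) * Set.ncard (Herm n)

/-- PERM. -/
def S_PERM : Prop :=
  ∀ (n : ℕ) (p : Equiv.Perm (Fin n)) (A : Finset (Fin n)), gN n (A.map p.toEmbedding) = gN n A

/-- The proportion of good codes for a set with `k` elements, `n = 2k + c`. -/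
noncomputable def R : ℕ → ℕ → ℝ
  | _, 0 => 1
  | _, 1 => 1
  | c, k + 2 => (((2 : ℝ) ^ (2 * k + c + 3) - 2 ^ (2 * k + 1)) / (2 ^ (2 * k + c + 3) + 1)) * R (c + 2) k

/-- FRAC (from STEP, TOT, PERM by induction on `k`; `k = 0, 1`: every code is good, because
an isotropic vector supported in one coordinate is zero). -/
def S_FRAC : Prop :=
  ∀ (k c : ℕ) (A : Finset (Fin (2 * k + c))), Even c → A.card = k →
    R c k * Set.ncard (Herm (2 * k + c)) ≤ gN (2 * k + c) A

/-- LOWX (from FRAC by averaging over `A`, and STATE, QEX; `Herm` is nonempty by NE). -/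
def S_LOWX : Prop :=
  ∀ k c : ℕ, Even c → R c k * ((2 * k + c).choose k) ≤ Qex (2 * k + c) k

/-- LIMX: the limit of `R c k`. -/
def S_LIMX : Prop :=
  ∀ c k : ℕ, (∏' j : ℕ, (1 - 1 / (2 : ℝ) ^ (c + 2 * (j + 1)))) * (1 - k / 2 ^ (k + c)) ≤ R c k

end Pool.Agent.N987.QX
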