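import Pool.Agent.N984.QX.Stm2

/-!
# Project QX (helper987): sharp upper bounds, first part: the Lagrangian induction.
-/

set_option autoImplicit false

namespace Pool.Agent.N987.QX

open Pool.Agent.N984.QX Finset

section

variable {n : ℕ}

open Classical in
/-- The weighted number of ordered `m`-tuples of distinct elements outside `Q` which together
with `Q` form a nice set. -/
noncomputable def P (nice : Finset (Fin n) → Prop) (l : Fin n → ℝ) : ℕ → Finset (Fin n) → ℝ
  | 0, Q => if nice Q then 1 else 0
  | m + 1, Q => ∑ i ∈ Qᶜ, l i * P nice l m (insert i Q)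

/-- The bound `F_m`. -/
noncomputable def F (δ : ℕ → ℝ) (m : ℕ) : ℝ := ∏ r ∈ range m, (δ (r + 1)) ^ r

variable {nice : Finset (Fin n) → Prop}

lemma P_succ (l : Fin n → ℝ) (m : ℕ) (Q : Finset (Fin n)) :
    P nice l (m + 1) Q = ∑ i ∈ Qᶜ, l i * P nice l m (insert i Q) := rfl

lemma P_zero_of_not (her : ∀ X Y, X ⊆ Y → nice Y → nice X) (l : Fin n → ℝ) (m : ℕ) :
    ∀ Q, ¬ nice Q → P nice l m Q = 0 := by
  induction m with
  | zero => intro Q hQ; simp [P, hQ]
  | succ m ih =>
    intro Q hQ
    rw [P_succ]
    apply Finset.sum_eq_zero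
    intro i _
    rw [ih _ (fun h => hQ (her _ _ (Finset.subset_insert i Q) h)), mul_zero]

lemma P_nonneg {l : Fin n → ℝ} (hl : ∀ i, 0 ≤ l i) (m : ℕ) :
    ∀ Q, 0 ≤ P nice l m Q := by
  induction m with
  | zero => intro Q; simp only [P]; split_ifs <;> norm_num
  | succ m ih =>
    intro Q
    rw [P_succ]
    exact Finset.sum_nonneg fun i _ => mul_nonneg (hl i) (ih _)

lemma P_congr (her : ∀ X Y, X ⊆ Y → nice Y → nice X) (m : ℕ) :
    ∀ (Q : Finset (Fin n)) (l l' : Fin n → ℝ), (∀ i, i ∉ Q → nice (insert i Q) → l i = l' i) →
      P nice l m Q = P nice l' m Q := by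
  induction m with
  | zero => intro Q l l' _; rfl
  | succ m ih =>
    intro Q l l' h
    rw [P_succ, P_succ]
    apply Finset.sum_congr rfl
    intro i hi
    have hiQ : i ∉ Q := Finset.mem_compl.mp hi
    by_cases hn : nice (insert i Q)
    · rw [h i hiQ hn]
      congr 1
      apply ih
      intro j hj hjn
      apply h j (fun hjQ => hj (Finset.mem_insert_of_mem hjQ))
      exact her _ _ (Finset.insert_subset_insert j (Finset.subset_insert i Q)) hjn
    · rw [P_zero_of_not her l m _ hn, P_zero_of_not her l' m _ hn, mul_zero, mul_zero]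

lemma P_smul (t : ℝ) (l : Fin n → ℝ) (m : ℕ) :
    ∀ Q, P nice (fun i => t * l i) m Q = t ^ m * P nice l m Q := by
  induction m with
  | zero => intro Q; simp [P]
  | succ m ih =>
    intro Q
    rw [P_succ, P_succ, Finset.mul_sum]
    apply Finset.sum_congr rfl
    intro i _
    rw [ih]; ring

lemma P_continuous (m : ℕ) : ∀ Q, Continuous fun l : Fin n → ℝ => P nice l m Q := by
  induction m with
  | zero => intro Q; exact continuous_const
  | succ m ih =>
    intro Q
    simp only [P_succ]
    apply continuous_finset_sum
    intro i _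
    exact (continuous_apply i).mul (ih _)

/-- Changing the weight of an element of `Q` does nothing. -/
lemma P_update_mem (l : Fin n → ℝ) (i : Fin n) (x : ℝ) (m : ℕ) :
    ∀ Q, i ∈ Q → P nice (Function.update l i x) m Q = P nice l m Q := by
  induction m with
  | zero => intro Q _; rfl
  | succ m ih =>
    intro Q hQ
    rw [P_succ, P_succ]
    apply Finset.sum_congr rfl
    intro j hj
    have hji : j ≠ i := fun h => (Finset.mem_compl.mp hj) (h ▸ hQ)
    rw [Function.update_of_ne hji, ih _ (Finset.mem_insert_of_mem hQ)]

/-- `P` is affine in each weight. -/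
lemma P_update (l : Fin n → ℝ) (i : Fin n) (s : ℝ) (m : ℕ) :
    ∀ Q, i ∉ Q → P nice (Function.update l i (l i - s)) (m + 1) Q =
      P nice l (m + 1) Q - s * (m + 1) * P nice l m (insert i Q) := by
  induction m with
  | zero =>
    intro Q hQ
    rw [P_succ, P_succ, ← Finset.add_sum_erase _ _ (Finset.mem_compl.mpr hQ),
      ← Finset.add_sum_erase Qᶜ _ (Finset.mem_compl.mpr hQ)]
    have h : ∑ x ∈ (Qᶜ).erase i, Function.update l i (l i - s) x *
        P nice (Function.update l i (l i - s)) 0 (insert x Q) =
        ∑ x ∈ (Qᶜ).erase i, l x * P nice l 0 (insert x Q) := by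
      apply Finset.sum_congr rfl
      intro j hj
      rw [Function.update_of_ne (Finset.ne_of_mem_erase hj)]
      rfl
    rw [h, Function.update_self]
    have h2 : P nice (Function.update l i (l i - s)) 0 (insert i Q) = P nice l 0 (insert i Q) := rfl
    rw [h2]
    push_cast
    ring
  | succ m ih =>
    intro Q hQ
    rw [P_succ, P_succ l (m + 1) Q, ← Finset.add_sum_erase _ _ (Finset.mem_compl.mpr hQ),
      ← Finset.add_sum_erase Qᶜ _ (Finset.mem_compl.mpr hQ)]
    have h : ∑ x ∈ (Qᶜ).erase i, Function.update l i (l i - s) x *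
        P nice (Function.update l i (l i - s)) (m + 1) (insert x Q) =
        ∑ x ∈ (Qᶜ).erase i, l x * P nice l (m + 1) (insert x Q) -
          s * (m + 1) * ∑ x ∈ (Qᶜ).erase i, l x * P nice l m (insert i (insert x Q)) := by
      rw [Finset.mul_sum, ← Finset.sum_sub_distrib]
      apply Finset.sum_congr rfl
      intro j hj
      have hji : j ≠ i := Finset.ne_of_mem_erase hj
      rw [Function.update_of_ne hji, ih _ (by
        rw [Finset.mem_insert, not_or]; exact ⟨fun h => hji h.symm, hQ⟩)]
      ring
    have h3 : ∑ x ∈ (Qᶜ).erase i, l x * P nice l m (insert i (insert x Q)) =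
        P nice l (m + 1) (insert i Q) := by
      rw [P_succ]
      apply Finset.sum_congr
      · ext x
        simp only [Finset.mem_erase, Finset.mem_compl, Finset.mem_insert, not_or]
      · intro x _
        rw [Finset.insert_comm]
    rw [h, h3, Function.update_self, P_update_mem l i _ (m + 1) _ (Finset.mem_insert_self i Q)]
    push_cast
    ring

lemma one_sub_pow_le (r : ℕ) {s : ℝ} (h0 : 0 ≤ s) (h1 : s ≤ 1) :
    (1 - s) ^ r * (1 + r * s) ≤ 1 := by
  have hb : 1 + (r : ℝ) * s ≤ (1 + s) ^ r := one_add_mul_le_pow (by linarith) r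
  calc (1 - s) ^ r * (1 + r * s) ≤ (1 - s) ^ r * (1 + s) ^ r :=
        mul_le_mul_of_nonneg_left hb (pow_nonneg (by linarith) r)
    _ = (1 - s * s) ^ r := by rw [← mul_pow]; ring_nf
    _ ≤ 1 := pow_le_one₀ (by nlinarith) (by nlinarith)

/-- The Lagrangian induction. -/
theorem lagrangian (her : ∀ X Y, X ⊆ Y → nice Y → nice X) (k : ℕ) (δ : ℕ → ℝ)
    (hδ0 : ∀ r, 0 ≤ δ r)
    (MS : ∀ r, 2 ≤ r → ∀ Q : Finset (Fin n), Q.card + r = k → nice Q →
      ∀ l : Fin n → ℝ, (∀ i, 0 ≤ l i) → P nice l 2 Q ≤ δ r * (P nice l 1 Q) ^ 2) :
    ∀ r, ∀ Q : Finset (Fin n), Q.card + r = k → ∀ l : Fin n → ℝ, (∀ i, 0 ≤ l i) →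
      P nice l r Q ≤ F δ r * (∑ i, l i) ^ r := by
  intro r
  have P1le : ∀ (l : Fin n → ℝ), (∀ i, 0 ≤ l i) → ∀ Q : Finset (Fin n),
      P nice l 1 Q ≤ ∑ i ∈ Qᶜ, l i := by
    intro l hl Q
    rw [P_succ]
    apply Finset.sum_le_sum
    intro i _
    have : P nice l 0 (insert i Q) ≤ 1 := by
      simp only [P]; split_ifs <;> norm_num
    calc l i * P nice l 0 (insert i Q) ≤ l i * 1 := mul_le_mul_of_nonneg_left this (hl i)
      _ = l i := mul_one _
  have hF0 : ∀ m, 0 ≤ F δ m := fun m => Finset.prod_nonneg fun r _ => pow_nonneg (hδ0 _) _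
  induction r with
  | zero =>
    intro Q _ l _
    simp only [P, F, Finset.range_zero, Finset.prod_empty, pow_zero, mul_one]
    split_ifs <;> norm_num
  | succ r ih =>
    rcases Nat.eq_zero_or_pos r with h0 | hpos
    · subst h0
      intro Q _ l hl
      have hF : F δ (0 + 1) = 1 := by simp [F]
      rw [hF, one_mul, pow_one]
      refine (P1le l hl Q).trans ?_
      exact Finset.sum_le_sum_of_subset_of_nonneg (Finset.subset_univ _) fun i _ _ => hl i
    · intro Q hQ l hl
      -- the improved form of the induction hypothesis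
      have ih' : ∀ Q' : Finset (Fin n), Q'.card + r = k → ∀ l : Fin n → ℝ, (∀ i, 0 ≤ l i) →
          P nice l r Q' ≤ F δ r * (P nice l 1 Q') ^ r := by
        classical
        intro Q' hQ' l hl
        set l' : Fin n → ℝ := fun i => if i ∉ Q' ∧ nice (insert i Q') then l i else 0 with hl'
        have e1 : P nice l r Q' = P nice l' r Q' := by
          apply P_congr her
          intro i hi hn
          simp only [hl', hi, hn, not_false_eq_true, and_self, if_true]
        have e2 : P nice l 1 Q' = ∑ i, l' i := by
          rw [P_succ, ← Finset.sum_subset (Finset.subset_univ (Q'ᶜ))]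
          · apply Finset.sum_congr rfl
            intro i hi
            have hi' : i ∉ Q' := Finset.mem_compl.mp hi
            by_cases hn : nice (insert i Q')
            · simp [hl', P, hi', hn]
            · simp [hl', P, hn]
          · intro i _ hi
            have hi' : i ∈ Q' := by simpa using hi
            simp [hl', hi']
        rw [e1, e2]
        apply ih Q' hQ' l'
        intro i
        simp only [hl']
        split_ifs
        · exact hl i
        · exact le_rfl
      by_cases hnQ : nice Q
      swap
      · rw [P_zero_of_not her l _ _ hnQ]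
        exact mul_nonneg (hF0 _) (pow_nonneg (Finset.sum_nonneg fun i _ => hl i) _)
      -- the maximiser
      have hFs : F δ (r + 1) = F δ r * δ (r + 1) ^ r := by
        rw [F, F, Finset.prod_range_succ]
      have main : ∀ l ∈ stdSimplex ℝ (Fin n), P nice l (r + 1) Q ≤ F δ (r + 1) := by
        by_cases hne : (stdSimplex ℝ (Fin n)).Nonempty
        swap
        · intro l hl
          exact absurd ⟨l, hl⟩ hne
        obtain ⟨μ, hμ, hmax⟩ := (isCompact_stdSimplex ℝ (Fin n)).exists_isMaxOn hne
          (P_continuous (nice := nice) (r + 1) Q).continuousOn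
        intro l hl
        refine (hmax hl).trans ?_
        change P nice μ (r + 1) Q ≤ _
        set p := P nice μ (r + 1) Q with hp
        have hμ0 : ∀ i, 0 ≤ μ i := hμ.1
        have hμ1 : ∑ i, μ i = 1 := hμ.2
        by_cases hp0 : p ≤ 0
        · exact hp0.trans (hF0 _)
        push_neg at hp0
        -- KKT
        have kkt : ∀ i, i ∉ Q → 0 < μ i → p ≤ P nice μ r (insert i Q) := by
          intro i hi hpos
          have key : ∀ s : ℝ, 0 < s → s ≤ μ i → s < 1 →
              p ≤ P nice μ r (insert i Q) * (1 + (r + 1 : ℕ) * s) := by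
            intro s hs hsi hs1
            set ν := Function.update μ i (μ i - s) with hν
            have h1 := P_update (nice := nice) μ i s r Q hi
            have hνsum : ∑ j, ν j = 1 - s := by
              rw [hν, Finset.sum_update_of_mem (Finset.mem_univ i)]
              have := Finset.add_sum_erase Finset.univ μ (Finset.mem_univ i)
              rw [Finset.sdiff_singleton_eq_erase]
              linarith
            have hν0 : ∀ j, 0 ≤ ν j := by
              intro j
              rw [hν]
              by_cases hj : j = i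
              · subst hj; rw [Function.update_self]; linarith
              · rw [Function.update_of_ne hj]; exact hμ0 j
            have h1s : 0 < 1 - s := by linarith
            have hmem : (fun j => (1 - s)⁻¹ * ν j) ∈ stdSimplex ℝ (Fin n) := by
              refine ⟨fun j => mul_nonneg (by positivity) (hν0 j), ?_⟩
              rw [← Finset.mul_sum, hνsum]
              exact inv_mul_cancel₀ h1s.ne'
            have h2 : P nice (fun j => (1 - s)⁻¹ * ν j) (r + 1) Q ≤ p := hmax hmem
            rw [P_smul] at h2
            have h3 : P nice ν (r + 1) Q ≤ (1 - s) ^ (r + 1) * p := by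
              have := mul_le_mul_of_nonneg_left h2 (pow_pos h1s (r + 1)).le
              rw [← mul_assoc, ← mul_pow, mul_inv_cancel₀ h1s.ne', one_pow, one_mul] at this
              exact this
            rw [h1] at h3
            have h4 := one_sub_pow_le (r + 1) hs.le hs1.le
            have hR : (0 : ℝ) < ((r + 1 : ℕ) : ℝ) := by positivity
            have h5 : (0 : ℝ) < 1 + ((r + 1 : ℕ) : ℝ) * s := by positivity
            -- s (r+1) P_i ≥ p (1 - (1-s)^(r+1))
            have h6 : p * (1 - (1 - s) ^ (r + 1)) ≤ s * ((r : ℝ) + 1) * P nice μ r (insert i Q) := by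
              rw [← hp] at h3
              linarith
            have h7 : ((r + 1 : ℕ) : ℝ) * s ≤ (1 - (1 - s) ^ (r + 1)) * (1 + ((r + 1 : ℕ) : ℝ) * s) := by
              linarith
            have h8 : p * (((r + 1 : ℕ) : ℝ) * s) ≤
                (s * ((r : ℝ) + 1) * P nice μ r (insert i Q)) * (1 + ((r + 1 : ℕ) : ℝ) * s) := by
              calc p * (((r + 1 : ℕ) : ℝ) * s) ≤
                    p * ((1 - (1 - s) ^ (r + 1)) * (1 + ((r + 1 : ℕ) : ℝ) * s)) :=
                    mul_le_mul_of_nonneg_left h7 hp0.le
                _ = p * (1 - (1 - s) ^ (r + 1)) * (1 + ((r + 1 : ℕ) : ℝ) * s) := by ring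
                _ ≤ _ := mul_le_mul_of_nonneg_right h6 h5.le
            have h9 : p * (((r + 1 : ℕ) : ℝ) * s) ≤
                (P nice μ r (insert i Q) * (1 + ((r + 1 : ℕ) : ℝ) * s)) * (((r + 1 : ℕ) : ℝ) * s) := by
              refine h8.trans (le_of_eq ?_)
              push_cast
              ring
            exact le_of_mul_le_mul_right h9 (by positivity)
          have hPi : 0 ≤ P nice μ r (insert i Q) := P_nonneg hμ0 _ _
          apply le_of_forall_pos_le_add
          intro ε hε
          set x := P nice μ r (insert i Q) with hx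
          set s := min (min (μ i) (1 / 2)) (ε / ((x + 1) * (r + 1 : ℕ))) with hs
          have hs0 : 0 < s := by
            rw [hs]
            apply lt_min (lt_min hpos (by norm_num))
            positivity
          have hs1 : s ≤ μ i := (min_le_left _ _).trans (min_le_left _ _)
          have hs2 : s ≤ 1 / 2 := (min_le_left _ _).trans (min_le_right _ _)
          have hs3 : s ≤ ε / ((x + 1) * (r + 1 : ℕ)) := min_le_right _ _
          have hk := key s hs0 hs1 (by linarith)
          have h10 : s * ((x + 1) * (r + 1 : ℕ)) ≤ ε := by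
            rwa [le_div_iff₀ (by positivity)] at hs3
          have h11 : x * ((r + 1 : ℕ) * s) ≤ ε := by
            have : x * ((r + 1 : ℕ) * s) ≤ (x + 1) * ((r + 1 : ℕ) * s) := by
              apply mul_le_mul_of_nonneg_right _ (by positivity)
              linarith
            refine this.trans (le_trans (le_of_eq ?_) h10)
            ring
          linarith
        -- some element of the support has small degree
        have hMS := MS (r + 1) (by omega) Q hQ hnQ μ hμ0
        obtain ⟨i, hi, hμi, hle⟩ : ∃ i, i ∉ Q ∧ 0 < μ i ∧ P nice μ 1 (insert i Q) ≤ δ (r + 1) := by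
          by_contra hcon
          push_neg at hcon
          have hS : P nice μ 2 Q = ∑ i ∈ Qᶜ, μ i * P nice μ 1 (insert i Q) := rfl
          have hsum1 : P nice μ 1 Q ≤ ∑ i ∈ Qᶜ, μ i := P1le μ hμ0 Q
          have hsum2 : ∑ i ∈ Qᶜ, μ i ≤ 1 := by
            rw [← hμ1]
            exact Finset.sum_le_sum_of_subset_of_nonneg (Finset.subset_univ _) fun i _ _ => hμ0 i
          have hP10 : 0 ≤ P nice μ 1 Q := P_nonneg hμ0 _ _
          have hup : P nice μ 2 Q ≤ δ (r + 1) * ∑ i ∈ Qᶜ, μ i := by
            refine hMS.trans ?_
            apply mul_le_mul_of_nonneg_left _ (hδ0 _)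
            nlinarith
          by_cases hz : ∃ i ∈ Qᶜ, 0 < μ i
          · obtain ⟨i, hi, hμi⟩ := hz
            have hlt : δ (r + 1) * ∑ i ∈ Qᶜ, μ i < P nice μ 2 Q := by
              rw [hS, Finset.mul_sum]
              apply Finset.sum_lt_sum
              · intro j hj
                rcases (hμ0 j).lt_or_eq with hj0 | hj0
                · rw [mul_comm]
                  exact mul_le_mul_of_nonneg_left
                    (hcon j (Finset.mem_compl.mp hj) hj0).le (hμ0 j)
                · rw [← hj0]; simp
              · refine ⟨i, hi, ?_⟩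
                rw [mul_comm]
                exact mul_lt_mul_of_pos_left (hcon i (Finset.mem_compl.mp hi) hμi) hμi
            linarith
          · push_neg at hz
            have : p = 0 := by
              rw [hp, P_succ]
              apply Finset.sum_eq_zero
              intro i hi
              have : μ i = 0 := le_antisymm (hz i hi) (hμ0 i)
              rw [this, zero_mul]
            linarith
        have h12 := kkt i hi hμi
        have hcard : (insert i Q).card + r = k := by
          rw [Finset.card_insert_of_notMem hi]; omega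
        have h13 := ih' (insert i Q) hcard μ hμ0
        have hP10 : 0 ≤ P nice μ 1 (insert i Q) := P_nonneg hμ0 _ _
        rw [hFs]
        calc p ≤ P nice μ r (insert i Q) := h12
          _ ≤ F δ r * (P nice μ 1 (insert i Q)) ^ r := h13
          _ ≤ F δ r * δ (r + 1) ^ r :=
              mul_le_mul_of_nonneg_left (pow_le_pow_left₀ hP10 hle r) (hF0 r)
      -- homogeneity
      set L := ∑ i, l i with hL
      have hL0 : 0 ≤ L := Finset.sum_nonneg fun i _ => hl i
      rcases hL0.lt_or_eq with hLpos | hLz
      · have hmem : (fun i => L⁻¹ * l i) ∈ stdSimplex ℝ (Fin n) := by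
          refine ⟨fun i => mul_nonneg (by positivity) (hl i), ?_⟩
          rw [← Finset.mul_sum, ← hL]
          exact inv_mul_cancel₀ hLpos.ne'
        have h := main _ hmem
        rw [P_smul] at h
        have h2 := mul_le_mul_of_nonneg_right h (pow_pos hLpos (r + 1)).le
        have h3 : L⁻¹ ^ (r + 1) * P nice l (r + 1) Q * L ^ (r + 1) = P nice l (r + 1) Q := by
          rw [mul_comm (L⁻¹ ^ (r + 1)), mul_assoc, ← mul_pow, inv_mul_cancel₀ hLpos.ne', one_pow,
            mul_one]
        rwa [h3] at h2
      · have hz : ∀ i, l i = 0 := by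
          intro i
          have := (Finset.sum_eq_zero_iff_of_nonneg (fun i _ => hl i)).mp (hL ▸ hLz.symm) i
            (Finset.mem_univ i)
          exact this
        have : P nice l (r + 1) Q = 0 := by
          rw [P_succ]
          apply Finset.sum_eq_zero
          intro i _
          rw [hz i, zero_mul]
        rw [this]
        exact mul_nonneg (hF0 _) (pow_nonneg hL0 _)

end

end Pool.Agent.N987.QX
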