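import Pool.Agent.N987.QX.UB1

/-!
# Project QX (helper987): sharp upper bounds, second part: the Cauchy-Schwarz inequality.
-/

set_option autoImplicit false

namespace Pool.Agent.N987.QX

open Pool.Agent.N984.QX Finset

section

variable {n : ℕ}

open Classical in
/-- Indicator of the vectors supported in `X`. -/
noncomputable def ind (X : Finset (Fin n)) (v : Vc n) : ℝ := if (∀ i, i ∉ X → v i = 0) then 1 else 0

open Classical in
/-- Indicator of `v i = 0`. -/
noncomputable def yy (i : Fin n) (v : Vc n) : ℝ := if v i = 0 then 1 else 0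

lemma W_ind (ψ : (Fin n → ZMod 2) → ℂ) (X : Finset (Fin n)) :
    W ψ X = ∑ v, ‖ev ψ v‖ ^ 2 * ind X v := by
  classical
  rw [W, Finset.sum_filter]
  apply Finset.sum_congr rfl
  intro v _
  simp only [ind]
  split_ifs <;> simp

lemma ind_nonneg (X : Finset (Fin n)) (v : Vc n) : 0 ≤ ind X v := by
  simp only [ind]; split_ifs <;> norm_num

lemma ind_insert (X : Finset (Fin n)) (i : Fin n) (v : Vc n) :
    ind (insert i X)ᶜ v = ind Xᶜ v * yy i v := by
  classical
  simp only [ind, yy, Finset.mem_compl, not_not, Finset.mem_insert]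
  by_cases h1 : ∀ j, j ∈ X → v j = 0
  · by_cases h2 : v i = 0
    · have h3 : ∀ j, j = i ∨ j ∈ X → v j = 0 := by
        rintro j (rfl | h)
        · exact h2
        · exact h1 j h
      rw [if_pos h3, if_pos h1, if_pos h2, one_mul]
    · have h3 : ¬ ∀ j, j = i ∨ j ∈ X → v j = 0 := fun h => h2 (h i (Or.inl rfl))
      rw [if_neg h3, if_neg h2, mul_zero]
  · have h3 : ¬ ∀ j, j = i ∨ j ∈ X → v j = 0 := fun h => h1 fun j hj => h j (Or.inr hj)
    rw [if_neg h3, if_neg h1, zero_mul]

lemma yy_sq (i : Fin n) (v : Vc n) : yy i v * yy i v = yy i v := by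
  simp only [yy]; split_ifs <;> norm_num

lemma yy_nonneg (i : Fin n) (v : Vc n) : 0 ≤ yy i v := by
  simp only [yy]; split_ifs <;> norm_num

lemma yy_le (i : Fin n) (v : Vc n) : yy i v ≤ 1 := by
  simp only [yy]; split_ifs <;> norm_num

lemma W_mono (ψ : (Fin n → ZMod 2) → ℂ) {X Y : Finset (Fin n)} (h : X ⊆ Y) : W ψ X ≤ W ψ Y := by
  classical
  rw [W, W]
  apply Finset.sum_le_sum_of_subset_of_nonneg
  · intro v hv
    rw [Finset.mem_filter] at hv ⊢
    exact ⟨hv.1, fun i hi => hv.2 i fun hX => hi (h hX)⟩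
  · intro v _ _; positivity

lemma one_le_W (h0 : S_EV0) (ψ : (Fin n → ZMod 2) → ℂ) (hψ : Normalised ψ) (X : Finset (Fin n)) :
    1 ≤ W ψ X := by
  classical
  have h : ‖ev ψ 0‖ ^ 2 = 1 := by rw [h0 n ψ hψ]; norm_num
  rw [W, ← h]
  apply Finset.single_le_sum (f := fun v => ‖ev ψ v‖ ^ 2) (fun v _ => by positivity)
  rw [Finset.mem_filter]
  exact ⟨Finset.mem_univ _, fun _ _ => rfl⟩

lemma W_of_mixed (h0 : S_EV0) (h1 : S_WEV) (ψ : (Fin n → ZMod 2) → ℂ) (hψ : Normalised ψ)
    (X : Finset (Fin n)) (hX : MaxMixed ψ X) : W ψ X = 1 := by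
  classical
  rw [W, Finset.sum_eq_single (0 : Vc n)]
  · rw [h0 n ψ hψ]; norm_num
  · intro v hv hv0
    rw [Finset.mem_filter] at hv
    rw [h1 n ψ X hX v hv.2 hv0]; norm_num
  · intro h
    exfalso; apply h
    rw [Finset.mem_filter]
    exact ⟨Finset.mem_univ _, fun _ _ => rfl⟩

lemma nice_her (h0 : S_EV0) (ψ : (Fin n → ZMod 2) → ℂ) (hψ : Normalised ψ) :
    ∀ X Y : Finset (Fin n), X ⊆ Y → W ψ Y = 1 → W ψ X = 1 := by
  intro X Y h hY
  exact le_antisymm (hY ▸ W_mono ψ h) (one_le_W h0 ψ hψ X)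

/-- The duality. -/
lemma W_compl (h2 : S_DUAL) {k c e : ℕ} (hn : n = 2 * k + c) (ψ : (Fin n → ZMod 2) → ℂ)
    (X : Finset (Fin n)) (hX : X.card + e = k) : W ψ Xᶜ = 2 ^ (c + 2 * e) * W ψ X := by
  have h := h2 n ψ X
  have hc : Xᶜ.card = X.card + (c + 2 * e) := by
    rw [Finset.card_compl, Fintype.card_fin]; omega
  rw [hc, pow_add, mul_assoc] at h
  exact (mul_left_cancel₀ (by positivity) h).symm

/-- The Motzkin-Straus inequality for the nice pairs. -/
theorem ms (h0 : S_EV0) (h2 : S_DUAL) {k c : ℕ} (hn : n = 2 * k + c) (ψ : (Fin n → ZMod 2) → ℂ)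
    (hψ : Normalised ψ) (r : ℕ) (hr : 2 ≤ r) (Q : Finset (Fin n)) (hQ : Q.card + r = k)
    (hnQ : W ψ Q = 1) (l : Fin n → ℝ) (hl : ∀ i, 0 ≤ l i) :
    P (fun X => W ψ X = 1) l 2 Q ≤
      (((2 : ℝ) ^ (c + 2 * r) - 4) / (2 ^ (c + 2 * r) - 1)) *
        (P (fun X => W ψ X = 1) l 1 Q) ^ 2 := by
  classical
  obtain ⟨r, rfl⟩ : ∃ r', r = r' + 2 := ⟨r - 2, by omega⟩
  set nice : Finset (Fin n) → Prop := fun X => W ψ X = 1 with hnice
  set M : ℝ := 2 ^ (c + 2 * (r + 2)) with hM
  have hM1 : (2 : ℝ) ^ (c + 2 * (r + 1)) = M / 4 := by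
    rw [hM, show c + 2 * (r + 2) = c + 2 * (r + 1) + 2 by ring, pow_add _ (c + 2 * (r + 1)) 2]
    norm_num
  have hM2 : (2 : ℝ) ^ (c + 2 * r) = M / 16 := by
    rw [hM, show c + 2 * (r + 2) = c + 2 * r + 4 by ring, pow_add _ (c + 2 * r) 4]
    norm_num
  have hM16 : 16 ≤ M := by
    have : (2 : ℝ) ^ (c + 2 * r) ≥ 1 := one_le_pow₀ (by norm_num)
    linarith
  set L : Finset (Fin n) := Qᶜ.filter (fun i => nice (insert i Q)) with hL
  set Λ : ℝ := ∑ i ∈ L, l i with hΛ
  set t : Fin n → Fin n → ℝ := fun i j => if (j ≠ i ∧ nice (insert j (insert i Q))) then 1 else 0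
    with ht
  set S : ℝ := ∑ i ∈ L, ∑ j ∈ L, l i * l j * t i j with hS
  have her := nice_her h0 ψ hψ
  have hP1 : P nice l 1 Q = Λ := by
    rw [P_succ, hΛ, hL, Finset.sum_filter]
    apply Finset.sum_congr rfl
    intro i _
    simp only [P]
    split_ifs <;> simp
  have hP2 : P nice l 2 Q = S := by
    have e1 : P nice l 2 Q = ∑ i ∈ Qᶜ, l i * ∑ j ∈ (insert i Q)ᶜ,
        l j * (if nice (insert j (insert i Q)) then 1 else 0) := rfl
    rw [e1, hS, hL, Finset.sum_filter]
    apply Finset.sum_congr rfl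
    intro i hi
    by_cases hni : nice (insert i Q)
    · rw [if_pos hni, Finset.mul_sum, Finset.sum_filter]
      have hsub : (insert i Q)ᶜ ⊆ Qᶜ := Finset.compl_subset_compl.mpr (Finset.subset_insert i Q)
      rw [← Finset.sum_subset hsub]
      · apply Finset.sum_congr rfl
        intro j hj
        have hji : j ≠ i := by
          intro h; rw [h] at hj; exact (Finset.mem_compl.mp hj) (Finset.mem_insert_self _ _)
        by_cases hnj : nice (insert j (insert i Q))
        · have h3 : nice (insert j Q) :=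
            her _ _ (Finset.insert_subset_insert j (Finset.subset_insert i Q)) hnj
          rw [if_pos hnj, if_pos h3]
          simp only [ht]
          rw [if_pos ⟨hji, hnj⟩]
          ring
        · have ht0 : t i j = 0 := if_neg (fun h => hnj h.2)
          rw [if_neg hnj, ht0]
          simp
      · intro j hj hj2
        have hji : j = i := by
          by_contra hne
          apply hj2
          rw [Finset.mem_compl, Finset.mem_insert, not_or]
          exact ⟨hne, Finset.mem_compl.mp hj⟩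
        have ht0 : t i j = 0 := if_neg (fun h => h.1 hji)
        rw [ht0]
        simp
    · rw [if_neg hni]
      have : ∑ j ∈ (insert i Q)ᶜ, l j * (if nice (insert j (insert i Q)) then (1 : ℝ) else 0) = 0 := by
        apply Finset.sum_eq_zero
        intro j _
        rw [if_neg (fun h => hni (her _ _ (Finset.subset_insert j _) h)), mul_zero]
      rw [this, mul_zero]
  -- the weights
  set b : Vc n → ℝ := fun v => ‖ev ψ v‖ ^ 2 * ind Qᶜ v with hb
  have hb0 : ∀ v, 0 ≤ b v := fun v => mul_nonneg (by positivity) (ind_nonneg _ _)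
  have hbz : b 0 = 1 := by
    simp only [hb]
    rw [h0 n ψ hψ]
    have : ind Qᶜ (0 : Vc n) = 1 := by
      simp [ind]
    rw [this]; norm_num
  have hWQ : ∑ v, b v = M := by
    rw [← W_ind, W_compl h2 hn ψ Q hQ, hnQ, mul_one]
  have hcard1 : ∀ i ∈ L, (insert i Q).card + (r + 1) = k := by
    intro i hi
    rw [hL, Finset.mem_filter, Finset.mem_compl] at hi
    rw [Finset.card_insert_of_notMem hi.1]; omega
  have hW1 : ∀ i ∈ L, ∑ v, b v * yy i v = M / 4 := by
    intro i hi
    have e : ∑ v, b v * yy i v = W ψ (insert i Q)ᶜ := by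
      rw [W_ind]
      apply Finset.sum_congr rfl
      intro v _
      rw [ind_insert]; simp only [hb]; ring
    have hni : W ψ (insert i Q) = 1 := by
      rw [hL, Finset.mem_filter] at hi; exact hi.2
    rw [e, W_compl h2 hn ψ _ (hcard1 i hi), hni, mul_one, hM1]
  have hW2 : ∀ i ∈ L, ∀ j ∈ L, ∑ v, b v * (yy i v * yy j v) ≤ M / 4 - (3 * M / 16) * t i j := by
    intro i hi j hj
    by_cases hc : j ≠ i ∧ nice (insert j (insert i Q))
    · have e : ∑ v, b v * (yy i v * yy j v) = W ψ (insert j (insert i Q))ᶜ := by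
        rw [W_ind]
        apply Finset.sum_congr rfl
        intro v _
        rw [ind_insert, ind_insert]; simp only [hb]; ring
      have hcard2 : (insert j (insert i Q)).card + r = k := by
        have hjQ : j ∉ insert i Q := by
          rw [Finset.mem_insert, not_or]
          refine ⟨hc.1, ?_⟩
          rw [hL, Finset.mem_filter, Finset.mem_compl] at hj
          exact hj.1
        have := hcard1 i hi
        rw [Finset.card_insert_of_notMem hjQ]; omega
      have hn2 : W ψ (insert j (insert i Q)) = 1 := hc.2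
      rw [e, W_compl h2 hn ψ _ hcard2, hn2, mul_one, hM2]
      simp only [ht]
      rw [if_pos hc]
      linarith
    · simp only [ht]
      rw [if_neg hc, mul_zero, sub_zero, ← hW1 i hi]
      apply Finset.sum_le_sum
      intro v _
      apply mul_le_mul_of_nonneg_left _ (hb0 v)
      calc yy i v * yy j v ≤ yy i v * 1 := mul_le_mul_of_nonneg_left (yy_le j v) (yy_nonneg i v)
        _ = yy i v := mul_one _
  set z : Vc n → ℝ := fun v => ∑ i ∈ L, l i * yy i v with hz
  have hz0 : z 0 = Λ := by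
    simp only [hz, hΛ]
    apply Finset.sum_congr rfl
    intro i _
    have : yy i (0 : Vc n) = 1 := by simp [yy]
    rw [this, mul_one]
  have hA : ∑ v, b v * z v = M / 4 * Λ := by
    have : ∑ v, b v * z v = ∑ i ∈ L, l i * ∑ v, b v * yy i v := by
      simp only [hz, Finset.mul_sum]
      rw [Finset.sum_comm]
      apply Finset.sum_congr rfl
      intro i _
      apply Finset.sum_congr rfl
      intro v _
      ring
    rw [this, hΛ, Finset.mul_sum]
    apply Finset.sum_congr rfl
    intro i hi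
    rw [hW1 i hi]; ring
  have hB : ∑ v, b v * (z v) ^ 2 ≤ M / 4 * Λ ^ 2 - 3 * M / 16 * S := by
    have e : ∑ v, b v * (z v) ^ 2 =
        ∑ i ∈ L, ∑ j ∈ L, l i * l j * ∑ v, b v * (yy i v * yy j v) := by
      have e1 : ∀ v, b v * (z v) ^ 2 =
          ∑ i ∈ L, ∑ j ∈ L, l i * l j * (b v * (yy i v * yy j v)) := by
        intro v
        simp only [hz]
        rw [sq, Finset.sum_mul_sum, Finset.mul_sum]
        apply Finset.sum_congr rfl
        intro i _
        rw [Finset.mul_sum]
        apply Finset.sum_congr rfl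
        intro j _
        ring
      rw [Finset.sum_congr rfl fun v _ => e1 v, Finset.sum_comm]
      apply Finset.sum_congr rfl
      intro i _
      rw [Finset.sum_comm]
      apply Finset.sum_congr rfl
      intro j _
      rw [Finset.mul_sum]
    rw [e]
    have e2 : M / 4 * Λ ^ 2 - 3 * M / 16 * S =
        ∑ i ∈ L, ∑ j ∈ L, l i * l j * (M / 4 - (3 * M / 16) * t i j) := by
      have : Λ ^ 2 = ∑ i ∈ L, ∑ j ∈ L, l i * l j := by
        rw [sq, hΛ, Finset.sum_mul_sum]
      rw [this, hS, Finset.mul_sum, Finset.mul_sum, ← Finset.sum_sub_distrib]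
      apply Finset.sum_congr rfl
      intro i _
      rw [Finset.mul_sum, Finset.mul_sum, ← Finset.sum_sub_distrib]
      apply Finset.sum_congr rfl
      intro j _
      ring
    rw [e2]
    apply Finset.sum_le_sum
    intro i hi
    apply Finset.sum_le_sum
    intro j hj
    exact mul_le_mul_of_nonneg_left (hW2 i hi j hj) (mul_nonneg (hl i) (hl j))
  -- Cauchy-Schwarz away from zero
  have hcs : (∑ v ∈ Finset.univ.erase (0 : Vc n), b v * z v) ^ 2 ≤
      (∑ v ∈ Finset.univ.erase (0 : Vc n), b v) *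
        (∑ v ∈ Finset.univ.erase (0 : Vc n), b v * (z v) ^ 2) := by
    apply Finset.sum_sq_le_sum_mul_sum_of_sq_eq_mul
    · intro v _; exact hb0 v
    · intro v _; exact mul_nonneg (hb0 v) (sq_nonneg _)
    · intro v _; ring
  have e0 := Finset.add_sum_erase Finset.univ b (Finset.mem_univ (0 : Vc n))
  have e1 := Finset.add_sum_erase Finset.univ (fun v => b v * z v) (Finset.mem_univ (0 : Vc n))
  have e2 := Finset.add_sum_erase Finset.univ (fun v => b v * (z v) ^ 2)
    (Finset.mem_univ (0 : Vc n))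
  simp only [hbz, hz0, one_mul] at e0 e1 e2
  rw [hWQ] at e0
  rw [hA] at e1
  have f0 : ∑ v ∈ Finset.univ.erase (0 : Vc n), b v = M - 1 := by linarith
  have f1 : ∑ v ∈ Finset.univ.erase (0 : Vc n), b v * z v = (M / 4 - 1) * Λ := by linarith
  have f2 : ∑ v ∈ Finset.univ.erase (0 : Vc n), b v * (z v) ^ 2 ≤
      (M / 4 - 1) * Λ ^ 2 - 3 * M / 16 * S := by linarith
  rw [f0, f1] at hcs
  have hcs2 : ((M / 4 - 1) * Λ) ^ 2 ≤ (M - 1) * ((M / 4 - 1) * Λ ^ 2 - 3 * M / 16 * S) :=
    hcs.trans (mul_le_mul_of_nonneg_left f2 (by linarith))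
  rw [hP1, hP2, div_mul_eq_mul_div, le_div_iff₀ (by linarith)]
  have h5 : 3 * M / 16 * (S * (M - 1)) ≤ 3 * M / 16 * ((M - 4) * Λ ^ 2) := by nlinarith [hcs2]
  exact le_of_mul_le_mul_left h5 (by linarith)

end

end Pool.Agent.N987.QX
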