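import Pool.Agent.N987.QX.UB2

/-!
# Project QX (helper987): sharp upper bounds, third part: the bound for every `m`.
-/

set_option autoImplicit false

namespace Pool.Agent.N987.QX

open Pool.Agent.N984.QX Finset

/-- The ratio `(2^(c+2r) - 4)/(2^(c+2r) - 1)`. -/
noncomputable def del (c r : ℕ) : ℝ := ((2 : ℝ) ^ (c + 2 * r) - 4) / (2 ^ (c + 2 * r) - 1)

lemma del_nonneg (c r : ℕ) (hr : 1 ≤ r) : 0 ≤ del c r := by
  have h : (4 : ℝ) ≤ 2 ^ (c + 2 * r) := by
    calc (4 : ℝ) = 2 ^ 2 := by norm_num
      _ ≤ 2 ^ (c + 2 * r) := pow_le_pow_right₀ (by norm_num) (by omega)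
  exact div_nonneg (by linarith) (by linarith)

section

variable {n : ℕ}

/-- Double counting. -/
lemma sum_P (nice : Finset (Fin n) → Prop) (k : ℕ) (m : ℕ) (hm : m ≤ k) :
    ∑ Q ∈ Finset.powersetCard (k - m) Finset.univ, P nice (fun _ => 1) m Q =
      (k.descFactorial m : ℝ) * ∑ Q ∈ Finset.powersetCard k Finset.univ, P nice (fun _ => 1) 0 Q := by
  induction m with
  | zero => simp
  | succ m ih =>
    have ih := ih (by omega)
    have h1 : ∑ Q ∈ Finset.powersetCard (k - (m + 1)) (Finset.univ : Finset (Fin n)),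
        P nice (fun _ => 1) (m + 1) Q =
        ∑ Q ∈ Finset.powersetCard (k - (m + 1)) (Finset.univ : Finset (Fin n)),
          ∑ i ∈ Qᶜ, P nice (fun _ => 1) m (insert i Q) := by
      apply Finset.sum_congr rfl
      intro Q _
      rw [P_succ]
      simp
    have h2 : ∑ Q ∈ Finset.powersetCard (k - (m + 1)) (Finset.univ : Finset (Fin n)),
          ∑ i ∈ Qᶜ, P nice (fun _ => 1) m (insert i Q) =
        ∑ Q ∈ Finset.powersetCard (k - m) (Finset.univ : Finset (Fin n)),
          ∑ i ∈ Q, P nice (fun _ => 1) m Q := by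
      rw [Finset.sum_sigma', Finset.sum_sigma']
      refine Finset.sum_bij' (fun a _ => ⟨insert a.2 a.1, a.2⟩) (fun a _ => ⟨a.1.erase a.2, a.2⟩)
        ?_ ?_ ?_ ?_ ?_
      · rintro ⟨Q, i⟩ h
        simp only [Finset.mem_sigma, Finset.mem_powersetCard, Finset.mem_compl, Finset.subset_univ,
          true_and] at h ⊢
        refine ⟨?_, Finset.mem_insert_self _ _⟩
        rw [Finset.card_insert_of_notMem h.2, h.1]; omega
      · rintro ⟨Q, i⟩ h
        simp only [Finset.mem_sigma, Finset.mem_powersetCard, Finset.mem_compl, Finset.subset_univ,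
          true_and] at h ⊢
        refine ⟨?_, Finset.notMem_erase _ _⟩
        rw [Finset.card_erase_of_mem h.2, h.1]; omega
      · rintro ⟨Q, i⟩ h
        simp only [Finset.mem_sigma, Finset.mem_powersetCard, Finset.mem_compl, Finset.subset_univ,
          true_and] at h ⊢
        rw [Finset.erase_insert h.2]
      · rintro ⟨Q, i⟩ h
        simp only [Finset.mem_sigma, Finset.mem_powersetCard, Finset.mem_compl, Finset.subset_univ,
          true_and] at h ⊢
        rw [Finset.insert_erase h.2]
      · rintro ⟨Q, i⟩ h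
        rfl
    have h3 : ∑ Q ∈ Finset.powersetCard (k - m) (Finset.univ : Finset (Fin n)),
          ∑ i ∈ Q, P nice (fun _ => 1) m Q =
        ((k - m : ℕ) : ℝ) * ∑ Q ∈ Finset.powersetCard (k - m) (Finset.univ : Finset (Fin n)),
          P nice (fun _ => 1) m Q := by
      rw [Finset.mul_sum]
      apply Finset.sum_congr rfl
      intro Q hQ
      rw [Finset.sum_const, nsmul_eq_mul, (Finset.mem_powersetCard.mp hQ).2]
    rw [h1, h2, h3, ih, Nat.descFactorial_succ]
    push_cast
    ring

end

lemma choose_desc (n k m : ℕ) (hm : m ≤ k) (hk : k ≤ n) :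
    n.choose k * k.descFactorial m = n.choose (k - m) * (n - k + m).descFactorial m := by
  have h1 := Nat.choose_mul_factorial_mul_factorial hk
  have h2 := Nat.choose_mul_factorial_mul_factorial (show k - m ≤ n by omega)
  have h3 := Nat.factorial_mul_descFactorial hm
  have h4 := Nat.factorial_mul_descFactorial (show m ≤ n - k + m by omega)
  have e1 : n - (k - m) = n - k + m := by omega
  have e2 : n - k + m - m = n - k := by omega
  rw [e1] at h2
  rw [e2] at h4
  have hp : 0 < (k - m).factorial * (n - k).factorial := by positivity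
  apply Nat.eq_of_mul_eq_mul_right hp
  calc n.choose k * k.descFactorial m * ((k - m).factorial * (n - k).factorial)
      = n.choose k * ((k - m).factorial * k.descFactorial m) * (n - k).factorial := by ring
    _ = n.factorial := by rw [h3, h1]
    _ = n.choose (k - m) * (k - m).factorial * (n - k + m).factorial := h2.symm
    _ = n.choose (k - m) * (k - m).factorial *
          ((n - k).factorial * (n - k + m).descFactorial m) := by rw [h4]
    _ = _ := by ring

/-- The upper bound for every `m`. -/
theorem ub_state (h0 : S_EV0) (h1 : S_WEV) (h2 : S_DUAL) (c k m : ℕ) (hm : m ≤ k)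
    (ψ : (Fin (2 * k + c) → ZMod 2) → ℂ) (hψ : Normalised ψ) :
    (numMixed k ψ : ℝ) * ((k + c + m).descFactorial m) ≤
      F (del c) m * ((k + c + m : ℕ) : ℝ) ^ m * ((2 * k + c).choose k) := by
  classical
  set nice : Finset (Fin (2 * k + c)) → Prop := fun X => W ψ X = 1 with hnice
  have her := nice_her h0 ψ hψ
  have hlag := lagrangian (nice := nice) her k (fun r => if r = 0 then 0 else del c r)
    (fun r => by
      split_ifs with h
      · exact le_rfl
      · exact del_nonneg c r (Nat.one_le_iff_ne_zero.mpr h))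
    (fun r hr Q hQ hnQ l hl => by
      have := ms h0 h2 rfl ψ hψ r hr Q hQ hnQ l hl
      have hr0 : r ≠ 0 := by omega
      simp only [hr0, if_false]
      exact this)
  have hFeq : F (fun r => if r = 0 then 0 else del c r) m = F (del c) m := by
    rw [F, F]
    apply Finset.prod_congr rfl
    intro r _
    simp
  -- each Q
  have hQb : ∀ Q ∈ Finset.powersetCard (k - m) (Finset.univ : Finset (Fin (2 * k + c))),
      P nice (fun _ => 1) m Q ≤ F (del c) m * ((k + c + m : ℕ) : ℝ) ^ m := by
    intro Q hQ
    have hQc : Q.card = k - m := (Finset.mem_powersetCard.mp hQ).2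
    set l : Fin (2 * k + c) → ℝ := fun i => if i ∈ Q then 0 else 1 with hl
    have e1 : P nice (fun _ => 1) m Q = P nice l m Q := by
      apply P_congr her
      intro i hi _
      simp [hl, hi]
    have h := hlag m Q (by omega) l (fun i => by simp only [hl]; split_ifs <;> norm_num)
    have hsum : ∑ i, l i = ((k + c + m : ℕ) : ℝ) := by
      have : ∑ i, l i = ∑ i ∈ Qᶜ, (1 : ℝ) := by
        rw [← Finset.sum_subset (Finset.subset_univ Qᶜ)]
        · apply Finset.sum_congr rfl
          intro i hi
          simp only [hl]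
          rw [if_neg (Finset.mem_compl.mp hi)]
        · intro i _ hi
          have : i ∈ Q := by simpa using hi
          simp [hl, this]
      rw [this, Finset.sum_const, nsmul_eq_mul, mul_one, Finset.card_compl, Fintype.card_fin, hQc]
      congr 1
      omega
    rw [hsum, hFeq] at h
    rw [e1]
    exact h
  have hs := sum_P nice k m hm
  have hle : ∑ Q ∈ Finset.powersetCard (k - m) (Finset.univ : Finset (Fin (2 * k + c))),
      P nice (fun _ => 1) m Q ≤
      ((2 * k + c).choose (k - m) : ℝ) * (F (del c) m * ((k + c + m : ℕ) : ℝ) ^ m) := by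
    refine (Finset.sum_le_card_nsmul _ _ _ hQb).trans (le_of_eq ?_)
    rw [Finset.card_powersetCard, Finset.card_univ, Fintype.card_fin, nsmul_eq_mul]
  have hnum : (numMixed k ψ : ℝ) ≤
      ∑ Q ∈ Finset.powersetCard k (Finset.univ : Finset (Fin (2 * k + c))),
        P nice (fun _ => 1) 0 Q := by
    rw [numMixed, Finset.card_filter]
    push_cast
    apply Finset.sum_le_sum
    intro Q _
    by_cases hQ : MaxMixed ψ Q
    · have : nice Q := W_of_mixed h0 h1 ψ hψ Q hQ
      rw [if_pos hQ]
      simp only [P]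
      rw [if_pos this]
    · rw [if_neg hQ]
      simp only [P]
      split_ifs <;> norm_num
  have hcd := choose_desc (2 * k + c) k m hm (by omega)
  have e3 : 2 * k + c - k + m = k + c + m := by omega
  rw [e3] at hcd
  have hcdR : ((2 * k + c).choose k : ℝ) * (k.descFactorial m) =
      ((2 * k + c).choose (k - m) : ℝ) * ((k + c + m).descFactorial m) := by exact_mod_cast hcd
  have hkd : (0 : ℝ) < (k.descFactorial m : ℝ) := by
    have : 0 < k.descFactorial m := Nat.descFactorial_pos.mpr hm
    exact_mod_cast this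
  have hchain : (k.descFactorial m : ℝ) * (numMixed k ψ : ℝ) ≤
      ((2 * k + c).choose (k - m) : ℝ) * (F (del c) m * ((k + c + m : ℕ) : ℝ) ^ m) := by
    calc (k.descFactorial m : ℝ) * (numMixed k ψ : ℝ) ≤ (k.descFactorial m : ℝ) *
          ∑ Q ∈ Finset.powersetCard k (Finset.univ : Finset (Fin (2 * k + c))),
            P nice (fun _ => 1) 0 Q := mul_le_mul_of_nonneg_left hnum hkd.le
      _ = _ := hs.symm
      _ ≤ _ := hle
  have hd0 : (0 : ℝ) ≤ ((k + c + m).descFactorial m : ℝ) := Nat.cast_nonneg _
  have hfin : (k.descFactorial m : ℝ) *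
      ((numMixed k ψ : ℝ) * ((k + c + m).descFactorial m)) ≤ (k.descFactorial m : ℝ) *
      (F (del c) m * ((k + c + m : ℕ) : ℝ) ^ m * ((2 * k + c).choose k)) := by
    calc (k.descFactorial m : ℝ) * ((numMixed k ψ : ℝ) * ((k + c + m).descFactorial m)) =
          ((k.descFactorial m : ℝ) * (numMixed k ψ : ℝ)) * ((k + c + m).descFactorial m) := by ring
      _ ≤ (((2 * k + c).choose (k - m) : ℝ) * (F (del c) m * ((k + c + m : ℕ) : ℝ) ^ m)) *
          ((k + c + m).descFactorial m) := mul_le_mul_of_nonneg_right hchain hd0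
      _ = (F (del c) m * ((k + c + m : ℕ) : ℝ) ^ m) *
          (((2 * k + c).choose (k - m) : ℝ) * ((k + c + m).descFactorial m)) := by ring
      _ = _ := by rw [← hcdR]; ring
  exact le_of_mul_le_mul_left hfin hkd

/-- The same for the extremal number. -/
theorem ub (h0 : S_EV0) (h1 : S_WEV) (h2 : S_DUAL) (c k m : ℕ) (hm : m ≤ k) :
    (Qex (2 * k + c) k : ℝ) * ((k + c + m).descFactorial m) ≤
      F (del c) m * ((k + c + m : ℕ) : ℝ) ^ m * ((2 * k + c).choose k) := by
  have hne : {q | ∃ ψ : (Fin (2 * k + c) → ZMod 2) → ℂ, Normalised ψ ∧ q = numMixed k ψ}.Nonempty := by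
    classical
    refine ⟨_, fun x => if x = 0 then 1 else 0, ?_, rfl⟩
    rw [Normalised, Finset.sum_eq_single (0 : Fin (2 * k + c) → ZMod 2)]
    · simp
    · intro b _ hb; simp [hb]
    · intro h; exact absurd (Finset.mem_univ _) h
  have hbd : BddAbove {q | ∃ ψ : (Fin (2 * k + c) → ZMod 2) → ℂ, Normalised ψ ∧ q = numMixed k ψ} := by
    classical
    refine ⟨(2 * k + c).choose k, ?_⟩
    rintro _ ⟨ψ, _, rfl⟩
    rw [numMixed]
    refine (Finset.card_filter_le _ _).trans ?_
    rw [Finset.card_powersetCard, Finset.card_univ, Fintype.card_fin]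
  obtain ⟨ψ, hψ, hq⟩ := Nat.sSup_mem hne hbd
  have h := ub_state h0 h1 h2 c k m hm ψ hψ
  rw [← hq] at h
  exact h

end Pool.Agent.N987.QX
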